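import Mathlib

set_option autoImplicit false

namespace Pool.Agent.P.MP_84759c_al

/-- A total cone of an additive group. -/
structure IsACone {M : Type*} [AddCommGroup M] (C : M → Prop) : Prop where
  zero : C 0
  add : ∀ a b, C a → C b → C (a + b)
  total : ∀ a, C a ∨ C (-a)

theorem exists_acone0 (V : Type*) [AddCommGroup V] [Module ℚ V] :
    ∃ P : V → Prop, IsACone P ∧ ∀ x, P x → P (-x) → x = 0 := by
  classical
  let b := Module.Basis.ofVectorSpace ℚ V
  let _ : LinearOrder (Module.Basis.ofVectorSpaceIndex ℚ V) := linearOrderOfSTO WellOrderingRel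
  refine ⟨fun x => 0 ≤ toLex (b.repr x), ⟨by simp, ?_, ?_⟩, ?_⟩
  · intro x y hx hy
    rw [map_add, toLex_add]
    exact add_nonneg hx hy
  · intro x
    rcases le_total 0 (toLex (b.repr x)) with h | h
    · exact Or.inl h
    · refine Or.inr ?_
      rw [map_neg, toLex_neg]
      exact neg_nonneg.mpr h
  · intro x h1 h2
    rw [map_neg, toLex_neg] at h2
    have h3 : toLex (b.repr x) = 0 := le_antisymm (neg_nonneg.mp h2) h1
    have h4 : b.repr x = 0 := h3
    simpa using h4

theorem exists_acone {V : Type*} [AddCommGroup V] [Module ℚ V] (W : Submodule ℚ V) :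
    ∃ P : V → Prop, IsACone P ∧ (∀ x, P x → P (-x) → x ∈ W) ∧ ∀ x ∈ W, P x := by
  obtain ⟨P, hP, ha⟩ := exists_acone0 (V ⧸ W)
  refine ⟨fun x => P (W.mkQ x), ⟨by simpa using hP.zero, ?_, ?_⟩, ?_, ?_⟩
  · intro x y hx hy
    rw [map_add]; exact hP.add _ _ hx hy
  · intro x
    rw [map_neg]; exact hP.total _
  · intro x h1 h2
    rw [map_neg] at h2
    exact (Submodule.Quotient.mk_eq_zero W).mp (ha _ h1 h2)
  · intro x hx
    have : W.mkQ x = 0 := (Submodule.Quotient.mk_eq_zero W).mpr hx
    simp only [this]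
    exact hP.zero

theorem IsACone.comap {M M' : Type*} [AddCommGroup M] [AddCommGroup M'] {C : M' → Prop}
    (h : IsACone C) (f : M →+ M') : IsACone (fun x => C (f x)) :=
  ⟨by simpa using h.zero, fun a b ha hb => by rw [map_add]; exact h.add _ _ ha hb,
    fun a => by rw [map_neg]; exact h.total _⟩

theorem IsACone.lex {M : Type*} [AddCommGroup M] {C₁ C₂ : M → Prop}
    (h₁ : IsACone C₁) (h₂ : IsACone C₂) : IsACone (fun x => C₁ x ∧ (C₁ (-x) → C₂ x)) := by
  refine ⟨⟨h₁.zero, fun _ => h₂.zero⟩, ?_, ?_⟩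
  · rintro a b ⟨ha, ha'⟩ ⟨hb, hb'⟩
    refine ⟨h₁.add _ _ ha hb, fun h => h₂.add _ _ (ha' ?_) (hb' ?_)⟩
    · have := h₁.add _ _ h hb
      simpa using this
    · have := h₁.add _ _ h ha
      simpa using this
  · intro a
    by_cases h1 : C₁ a
    · by_cases h2 : C₁ (-a)
      · rcases h₂.total a with h | h
        · exact Or.inl ⟨h1, fun _ => h⟩
        · exact Or.inr ⟨h2, fun _ => h⟩
      · exact Or.inl ⟨h1, fun h => absurd h h2⟩
    · exact Or.inr ⟨(h₁.total a).resolve_left h1, fun h => absurd (by simpa using h) h1⟩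

/-- A decreasing chain of subspaces together with cones on the successive quotients. -/
structure Chain {V : Type*} [AddCommGroup V] [Module ℚ V] (W : ℕ → Submodule ℚ V)
    (P : ℕ → V → Prop) : Prop where
  top : ∀ x, x ∈ W 0
  anti : ∀ j x, x ∈ W (j + 1) → x ∈ W j
  cone : ∀ j, IsACone (P j)
  ker : ∀ j x, P j x → P j (-x) → x ∈ W (j + 1)
  mem : ∀ j x, x ∈ W (j + 1) → P j x

theorem exists_chain {V : Type*} [AddCommGroup V] [Module ℚ V] (W : ℕ → Submodule ℚ V)
    (top : ∀ x, x ∈ W 0) (anti : ∀ j x, x ∈ W (j + 1) → x ∈ W j) : ∃ P, Chain W P := by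
  choose P h1 h2 h3 using fun j => exists_acone (W (j + 1))
  exact ⟨P, top, anti, h1, h2, h3⟩

/-- The lexicographic cone of a chain, using the levels in the initial segment `L`. -/
def chainCone {V : Type*} [AddCommGroup V] [Module ℚ V] (W : ℕ → Submodule ℚ V)
    (P : ℕ → V → Prop) (L : ℕ → Prop) (x : V) : Prop :=
  ∀ j, L j → x ∈ W j → P j x

section
variable {V : Type*} [AddCommGroup V] [Module ℚ V] {W : ℕ → Submodule ℚ V}
    {P : ℕ → V → Prop} {L : ℕ → Prop}

theorem Chain.anti' (h : Chain W P) {i j : ℕ} (hij : i ≤ j) {x : V} (hx : x ∈ W j) : x ∈ W i := by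
  induction j, hij using Nat.le_induction with
  | base => exact hx
  | succ j _ ih => exact ih (h.anti _ _ hx)

theorem Chain.isACone (h : Chain W P) (hL : ∀ j, L (j + 1) → L j) :
    IsACone (chainCone W P L) := by
  refine ⟨fun j _ _ => (h.cone j).zero, ?_, ?_⟩
  · intro a b ha hb
    have key : ∀ j, L j → a + b ∈ W j → a ∈ W j ∧ b ∈ W j := by
      intro j
      induction j with
      | zero => intro _ _; exact ⟨h.top _, h.top _⟩
      | succ j ih =>
        intro hj hab
        obtain ⟨h1, h2⟩ := ih (hL _ hj) (h.anti _ _ hab)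
        have h3 := ha j (hL _ hj) h1
        have h4 := hb j (hL _ hj) h2
        have h5 := h.mem j _ (neg_mem hab)
        have h6 := (h.cone j).add _ _ h5 h4
        have h7 := (h.cone j).add _ _ h5 h3
        exact ⟨h.ker j _ h3 (by simpa using h6), h.ker j _ h4 (by simpa using h7)⟩
    intro j hj hab
    obtain ⟨h1, h2⟩ := key j hj hab
    exact (h.cone j).add _ _ (ha j hj h1) (hb j hj h2)
  · intro a
    by_contra hcon
    simp only [chainCone] at hcon
    push Not at hcon
    obtain ⟨⟨i, -, hi, hi'⟩, ⟨j, -, hj, hj'⟩⟩ := hcon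
    rcases lt_trichotomy i j with hij | hij | hij
    · exact hi' (h.mem _ _ (h.anti' hij (by simpa using hj)))
    · subst hij
      exact hj' (((h.cone i).total a).resolve_left hi')
    · exact hj' (h.mem _ _ (h.anti' hij (neg_mem hi)))

theorem Chain.mem_of_ker (h : Chain W P) (hL : ∀ j, L (j + 1) → L j) {x : V}
    (h1 : chainCone W P L x) (h2 : chainCone W P L (-x)) : ∀ j, L j → x ∈ W (j + 1) := by
  intro j
  induction j with
  | zero => intro hj; exact h.ker _ _ (h1 0 hj (h.top _)) (h2 0 hj (h.top _))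
  | succ j ih =>
    intro hj
    have := ih (hL _ hj)
    exact h.ker _ _ (h1 _ hj this) (h2 _ hj (neg_mem this))

theorem Chain.cone_of_mem (h : Chain W P) {x : V} (hx : ∀ j, L j → x ∈ W (j + 1)) :
    chainCone W P L x := fun j hj _ => h.mem _ _ (hx j hj)

theorem Chain.cone_of_sub (h : Chain W P) {x y : V} (hxy : ∀ j, x ∈ W j → y - x ∈ W (j + 1))
    (hx : chainCone W P L x) : chainCone W P L y := by
  have key : ∀ j, y ∈ W j → x ∈ W j := by
    intro j
    induction j with
    | zero => intro _; exact h.top _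
    | succ j ih =>
      intro hy
      have := sub_mem hy (hxy j (ih (h.anti _ _ hy)))
      simpa using this
  intro j hj hy
  have h1 := key j hy
  have := (h.cone j).add _ _ (hx j hj h1) (h.mem _ _ (hxy j h1))
  simpa using this

end

/-- A functional can be approximated on a finite set by functionals killing a term of a
decreasing chain whose intersection it kills. -/
theorem exists_approx_functional {V : Type*} [AddCommGroup V] [Module ℚ V] (φ : V →ₗ[ℚ] ℚ)
    (W : ℕ → Submodule ℚ V) (anti : Antitone W) (hφ : ∀ x, (∀ j, x ∈ W j) → φ x = 0)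
    (s : Finset V) : ∃ m₀, ∀ m ≥ m₀, ∃ ψ : V →ₗ[ℚ] ℚ, (∀ x ∈ s, ψ x = φ x) ∧ ∀ x ∈ W m, ψ x = 0 := by
  let E : Submodule ℚ V := Submodule.span ℚ (s : Set V)
  have : FiniteDimensional ℚ E := FiniteDimensional.span_finset ℚ s
  let f : ℕ →o (Submodule ℚ E)ᵒᵈ :=
    ⟨fun j => OrderDual.toDual ((W j).comap E.subtype), fun i j hij =>
      Submodule.comap_mono (anti hij)⟩
  obtain ⟨m₀, hm₀⟩ := IsArtinian.monotone_stabilizes f
  refine ⟨m₀, fun m hm => ?_⟩
  let g : E →ₗ[ℚ] V ⧸ W m := (W m).mkQ ∘ₗ E.subtype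
  have hker : φ ∘ₗ E.subtype ∈ (LinearMap.ker g).dualAnnihilator := by
    rw [Submodule.mem_dualAnnihilator]
    intro x hx
    have h1 : (x : V) ∈ W m := (Submodule.Quotient.mk_eq_zero _).mp hx
    apply hφ
    intro j
    rcases le_total j m with hj | hj
    · exact anti hj h1
    · have h2 : (W m).comap E.subtype = (W j).comap E.subtype :=
        (hm₀ m hm).symm.trans (hm₀ j (le_trans hm hj))
      have h3 : x ∈ (W m).comap E.subtype := h1
      rw [h2] at h3
      exact h3
  rw [← LinearMap.range_dualMap_eq_dualAnnihilator_ker] at hker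
  obtain ⟨χ, hχ⟩ := hker
  refine ⟨χ ∘ₗ (W m).mkQ, fun x hx => ?_, fun x hx => ?_⟩
  · have := LinearMap.congr_fun hχ ⟨x, Submodule.subset_span hx⟩
    simpa [g] using this
  · have : (W m).mkQ x = 0 := (Submodule.Quotient.mk_eq_zero _).mpr hx
    simp [this]

end Pool.Agent.P.MP_84759c_al
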