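import Mathlib

set_option autoImplicit false

open LaurentPolynomial

namespace Pool.Agent.P.MP_84759c_al

/-- The character of `ℤ ^ n` given by a family of units. -/
noncomputable def chi {R : Type*} [CommRing R] {n : ℕ} (t : Fin n → Rˣ) (q : Fin n → ℤ) : R :=
  ((∏ i, t i ^ q i : Rˣ) : R)

theorem chi_zero {R : Type*} [CommRing R] {n : ℕ} (t : Fin n → Rˣ) : chi t 0 = 1 := by
  simp [chi]

theorem chi_add {R : Type*} [CommRing R] {n : ℕ} (t : Fin n → Rˣ) (p q : Fin n → ℤ) :
    chi t (p + q) = chi t p * chi t q := by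
  simp only [chi, Pi.add_apply, zpow_add, Finset.prod_mul_distrib, Units.val_mul]

theorem map_chi {R S : Type*} [CommRing R] [CommRing S] {n : ℕ} (θ : R →+* S) (t : Fin n → Rˣ)
    (τ : Fin n → Sˣ) (h : ∀ i, θ (t i) = τ i) (q : Fin n → ℤ) : θ (chi t q) = chi τ q := by
  have e : ∀ i, τ i = Units.map (θ : R →* S) (t i) := fun i => Units.ext (h i).symm
  have : (∏ i, τ i ^ q i) = Units.map (θ : R →* S) (∏ i, t i ^ q i) := by
    simp only [e, map_prod, map_zpow]
  rw [chi, chi, this]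
  rfl

theorem chi_one {R : Type*} [CommRing R] {n : ℕ} (q : Fin n → ℤ) :
    chi (fun _ => (1 : Rˣ)) q = 1 := by
  simp [chi]

theorem chi_single {R : Type*} [CommRing R] {n : ℕ} (t : Fin n → Rˣ) (i : Fin n) :
    chi t (Pi.single i 1) = t i := by
  rw [chi, Finset.prod_eq_single i]
  · simp
  · intro j _ hj; simp [Pi.single_eq_of_ne hj]
  · simp

theorem chi_mul {R : Type*} [CommRing R] {n : ℕ} (s t : Fin n → Rˣ) (q : Fin n → ℤ) :
    chi (fun i => s i * t i) q = chi s q * chi t q := by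
  simp only [chi, mul_zpow, Finset.prod_mul_distrib, Units.val_mul]

theorem chi_zpow {R : Type*} [CommRing R] {n : ℕ} (u : Rˣ) (e q : Fin n → ℤ) :
    chi (fun i => u ^ e i) q = ((u ^ (∑ i, e i * q i) : Rˣ) : R) := by
  rw [chi]
  congr 1
  simp only [← zpow_mul]
  induction (Finset.univ : Finset (Fin n)) using Finset.induction_on with
  | empty => simp
  | insert a s ha ih => rw [Finset.prod_insert ha, Finset.sum_insert ha, ih, zpow_add]

/-- The coordinate ring of the hyperplane section `t 0 + ... + t n = n + 1` of the torus. -/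
theorem exists_ring (n : ℕ) :
    ∃ (B : Type) (_ : CommRing B) (_ : Algebra ℚ B) (_ : IsDomain B) (_ : IsNoetherianRing B)
      (t : Fin (n + 1) → Bˣ), (∑ i, (t i : B) = ((n + 1 : ℕ) : B)) ∧
      (∀ f g : B →+* ℚ, (∀ i, f (t i) = g (t i)) → f = g) ∧
      ∀ (D : Type) [CommRing D] [Algebra ℚ D] (τ : Fin (n + 1) → Dˣ),
        (∑ i, (τ i : D) = ((n + 1 : ℕ) : D)) → ∃ θ : B →+* D, ∀ i, θ (t i) = τ i := by
  let R := MvPolynomial (Fin n) ℚ
  let p : Fin (n + 1) → R := Fin.cons (((n + 1 : ℕ) : R) - ∑ i, MvPolynomial.X i) MvPolynomial.X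
  let δ : R := ∏ i, p i
  have hev : ∀ (D : Type) [CommRing D] [Algebra ℚ D] (τ : Fin (n + 1) → D),
      (∑ i, τ i = ((n + 1 : ℕ) : D)) →
      ∀ i, MvPolynomial.aeval (fun j : Fin n => τ j.succ) (p i) = τ i := by
    intro D _ _ τ hτ i
    refine Fin.cases ?_ (fun j => ?_) i
    · rw [Fin.sum_univ_succ] at hτ
      simp only [p, Fin.cons_zero, map_sub, map_natCast, map_sum, MvPolynomial.aeval_X]
      rw [← hτ]; ring
    · simp [p]
  have hδ : δ ≠ 0 := by
    intro h
    have h1 := hev ℚ (fun _ => 1) (by simp)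
    have h2 : MvPolynomial.aeval (fun _ : Fin n => (1 : ℚ)) δ = 1 := by
      simp only [δ, map_prod]
      exact Finset.prod_eq_one (fun i _ => h1 i)
    rw [h] at h2
    simp at h2
  let B := Localization.Away δ
  have hdom : IsDomain B :=
    IsLocalization.isDomain_localization (powers_le_nonZeroDivisors_of_noZeroDivisors hδ)
  have hu : ∀ i, IsUnit (algebraMap R B (p i)) := fun i =>
    isUnit_of_dvd_unit (map_dvd _ (Finset.dvd_prod_of_mem p (Finset.mem_univ i)))
      (IsLocalization.Away.algebraMap_isUnit δ)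
  refine ⟨B, inferInstance, inferInstance, hdom, inferInstance, fun i => (hu i).unit, ?_, ?_, ?_⟩
  · simp only [IsUnit.unit_spec]
    rw [← map_sum, Fin.sum_univ_succ]
    simp [p]
  · intro f g h
    refine IsLocalization.ringHom_ext (Submonoid.powers δ) (MvPolynomial.ringHom_ext ?_ ?_)
    · intro r
      exact RingHom.congr_fun (Subsingleton.elim
        ((f.comp (algebraMap R B)).comp MvPolynomial.C)
        ((g.comp (algebraMap R B)).comp MvPolynomial.C)) r
    · intro j
      simpa [p] using h j.succ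
  · intro D _ _ τ hτ
    have h1 := hev D (fun i => τ i) hτ
    let g : R →+* D := (MvPolynomial.aeval (fun j : Fin n => (τ j.succ : D))).toRingHom
    have hg : IsUnit (g δ) := by
      have : g δ = ((∏ i, τ i : Dˣ) : D) := by
        simp only [δ, map_prod, Units.coe_prod]
        exact Finset.prod_congr rfl (fun i _ => h1 i)
      rw [this]; exact Units.isUnit _
    refine ⟨IsLocalization.Away.lift δ hg, fun i => ?_⟩
    simp only [IsUnit.unit_spec, IsLocalization.Away.lift_eq]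
    exact h1 i

/-- The variable of the Laurent polynomial ring as a unit. -/
noncomputable def uT (R : Type*) [CommRing R] : (R[T;T⁻¹])ˣ := unitOfInvertible (T 1)

theorem uT_val (R : Type*) [CommRing R] : ((uT R : (R[T;T⁻¹])ˣ) : R[T;T⁻¹]) = T 1 := rfl

theorem uT_zpow (R : Type*) [CommRing R] (n : ℤ) :
    ((uT R ^ n : (R[T;T⁻¹])ˣ) : R[T;T⁻¹]) = T n := by
  induction n using Int.induction_on with
  | zero => simp
  | succ n ih => rw [zpow_add_one, Units.val_mul, ih, T_add]; rfl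
  | pred n ih => rw [zpow_sub_one, Units.val_mul, ih, T_sub]; rfl

/-- Evaluation of Laurent polynomials at a unit. -/
noncomputable def evL {R : Type*} [CommRing R] (a : Rˣ) : R[T;T⁻¹] →+* R :=
  eval₂ (RingHom.id R) a

theorem laurent_isDomain (R : Type*) [CommRing R] [IsDomain R] : IsDomain R[T;T⁻¹] :=
  IsLocalization.isDomain_of_le_nonZeroDivisors (M := Submonoid.powers (Polynomial.X : Polynomial R))
    _ (powers_le_nonZeroDivisors_of_noZeroDivisors Polynomial.X_ne_zero)

theorem laurent_noeth (R : Type*) [CommRing R] [IsNoetherianRing R] :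
    IsNoetherianRing R[T;T⁻¹] :=
  IsLocalization.isNoetherianRing (Submonoid.powers (Polynomial.X : Polynomial R)) _ inferInstance

theorem dvd_of_evL {R : Type*} [CommRing R] (a : Rˣ) (f : R[T;T⁻¹]) (h : evL a f = 0) :
    (T 1 - C (a : R)) ∣ f := by
  obtain ⟨n, p, hp⟩ := exists_T_pow f
  have h1 : p.IsRoot a := by
    have := congrArg (evL a) hp
    rw [map_mul, h, zero_mul, evL, eval₂_toLaurent] at this
    exact this
  obtain ⟨r, hr⟩ := Polynomial.dvd_iff_isRoot.mpr h1
  refine ⟨Polynomial.toLaurent r * T (-n), ?_⟩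
  have e : f = f * T n * T (-n) := by rw [mul_T_assoc]; simp
  rw [e, ← hp, hr]
  simp [mul_assoc]

theorem evL_T_sub {R : Type*} [CommRing R] (a : Rˣ) : evL a (T 1 - C (a : R)) = 0 := by
  simp [evL]

theorem T_sub_ne_zero {R : Type*} [CommRing R] [Nontrivial R] (a : R) :
    (T 1 - C a : R[T;T⁻¹]) ≠ 0 := by
  have : (T 1 - C a : R[T;T⁻¹]) = Polynomial.toLaurent (Polynomial.X - Polynomial.C a) := by simp
  rw [this, Polynomial.toLaurent_ne_zero]
  exact Polynomial.X_sub_C_ne_zero a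

theorem laurent_hom_ext {R S : Type*} [CommRing R] [CommRing S] {f g : R[T;T⁻¹] →+* S}
    (hC : ∀ r, f (C r) = g (C r)) (hT : f (T 1) = g (T 1)) : f = g := by
  have h1 : Units.map (f : R[T;T⁻¹] →* S) (uT R) = Units.map (g : R[T;T⁻¹] →* S) (uT R) :=
    Units.ext hT
  have h2 : ∀ n : ℤ, f (T n) = g (T n) := by
    intro n
    have := congrArg (fun x : Sˣ => ((x ^ n : Sˣ) : S)) h1
    simp only [← map_zpow] at this
    rw [← uT_zpow]
    exact this
  refine RingHom.ext (fun p => ?_)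
  induction p using LaurentPolynomial.induction_on' with
  | add p q hp hq => rw [map_add, map_add, hp, hq]
  | C_mul_T n a => rw [map_mul, map_mul, hC, h2]

/-- The unit `2` of the rationals. -/
def two : ℚˣ := Units.mk0 2 (by norm_num)

/-- Laurent polynomials over the rationals. -/
abbrev Lam : Type := ℚ[T;T⁻¹]

/-- The fibre product curve. -/
theorem exists_curve (n : ℕ) (e lam : Fin n → ℤ) (hl : lam ≠ 0) (he : ∀ i, -1 ≤ e i)
    (hsum : ∑ i, (2 : ℚ) ^ e i = n) :
    ∃ (D : Type) (_ : CommRing D) (_ : Algebra ℚ D) (θ : Lam →+* D) (μ ν : Dˣ) (φ : D →+* ℚ),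
      θ (T 1) = μ ∧ (∑ i, ((μ ^ e i * ν ^ lam i : Dˣ) : D) = (n : D)) ∧
      (∀ f, φ (θ f) = evL two f) ∧ φ ν = 1 ∧
      ∀ ρ : Lam, ρ ≠ 0 → ∀ ξ : D, θ ρ * ξ = 0 → φ ξ = 0 := by
  have := laurent_isDomain ℚ
  have := laurent_noeth ℚ
  have := laurent_isDomain Lam
  let F : Lam[T;T⁻¹] := ∑ i, T (e i) * C (T (lam i) : Lam) - (n : Lam[T;T⁻¹])
  let D := Lam[T;T⁻¹] ⧸ Ideal.span {F}
  let mk : Lam[T;T⁻¹] →+* D := Ideal.Quotient.mk _
  let two' : Lamˣ := Units.map (C : ℚ →+* Lam) two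
  let ε : Lam[T;T⁻¹] →+* Lam := evL two'
  let φL : Lam[T;T⁻¹] →+* ℚ := (evL (1 : ℚˣ)).comp ε
  have hεF : ∀ x : ℚˣ, evL x (ε F) = ∑ i, (2 : ℚ) ^ e i * (x : ℚ) ^ lam i - n := by
    intro x
    simp only [F, ε, evL, map_sub, map_sum, map_mul, map_natCast, eval₂_T, eval₂_C, RingHom.id_apply,
      two', ← map_zpow, Units.coe_map, MonoidHom.coe_coe]
    simp [two]
  have hF0 : φL F = 0 := by
    have := hεF 1
    simp only [Units.val_one, one_zpow, mul_one, hsum, sub_self] at this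
    exact this
  have hF1 : ε F ≠ 0 := by
    obtain ⟨i₀, hi₀⟩ : ∃ i, lam i ≠ 0 := Function.ne_iff.mp hl
    have hpos : (0 : ℚ) < 2 * n + 1 := by positivity
    have hone : (1 : ℚ) ≤ 2 * n + 1 := by linarith [Nat.cast_nonneg (α := ℚ) n]
    obtain ⟨x, hx0, hx⟩ : ∃ x : ℚ, 0 < x ∧ 2 * n + 1 ≤ x ^ lam i₀ := by
      rcases lt_or_gt_of_ne hi₀ with h | h
      · refine ⟨(2 * n + 1)⁻¹, by positivity, ?_⟩
        rw [inv_zpow', ← zpow_one (2 * (n : ℚ) + 1), ← zpow_mul]
        exact zpow_le_zpow_right₀ hone (by omega)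
      · refine ⟨2 * n + 1, hpos, ?_⟩
        rw [← zpow_one (2 * (n : ℚ) + 1), ← zpow_mul]
        exact zpow_le_zpow_right₀ hone (by omega)
    intro h
    have h1 := hεF (Units.mk0 x hx0.ne')
    rw [h, map_zero, Units.val_mk0] at h1
    have h2 : (2 : ℚ) ^ e i₀ * x ^ lam i₀ ≤ ∑ i, (2 : ℚ) ^ e i * x ^ lam i :=
      Finset.single_le_sum (f := fun i => (2 : ℚ) ^ e i * x ^ lam i)
        (fun i _ => by positivity) (Finset.mem_univ i₀)
    have h3 : (2 : ℚ) ^ (-1 : ℤ) ≤ 2 ^ e i₀ := zpow_le_zpow_right₀ (by norm_num) (he i₀)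
    have h4 : (2 : ℚ) ^ (-1 : ℤ) = 1 / 2 := by norm_num
    rw [h4] at h3
    nlinarith
  let φ : D →+* ℚ := Ideal.Quotient.lift _ φL (fun a ha => by
    obtain ⟨b, rfl⟩ := Ideal.mem_span_singleton'.mp ha
    rw [map_mul, hF0, mul_zero])
  let θL : Lam →+* Lam[T;T⁻¹] :=
    eval₂ ((C : Lam →+* Lam[T;T⁻¹]).comp (C : ℚ →+* Lam)) (uT Lam)
  have hθT : θL (T 1) = T 1 := by simp [θL, uT_val]
  have hφθ : ∀ f, φL (θL f) = evL two f := by
    intro f
    have : φL.comp θL = evL two := by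
      apply laurent_hom_ext
      · intro r; simp [φL, θL, ε, evL]
      · simp [φL, hθT, ε, evL, two']
    exact RingHom.congr_fun this f
  have hnz : ∀ ξ : D, mk (T 1 - C (two' : Lam)) * ξ = 0 → ξ = 0 := by
    intro ξ hξ
    obtain ⟨x, rfl⟩ := Ideal.Quotient.mk_surjective ξ
    change mk _ * mk x = 0 at hξ
    rw [← map_mul, Ideal.Quotient.eq_zero_iff_mem, Ideal.mem_span_singleton'] at hξ
    obtain ⟨η, hη⟩ := hξ
    have h1 : ε η = 0 := by
      have := congrArg ε hη
      rw [map_mul, map_mul, evL_T_sub, zero_mul] at this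
      exact (mul_eq_zero.mp this).resolve_right hF1
    obtain ⟨η', rfl⟩ := dvd_of_evL two' η h1
    rw [mul_assoc] at hη
    have h2 := mul_left_cancel₀ (T_sub_ne_zero (two' : Lam)) hη
    rw [Ideal.Quotient.eq_zero_iff_mem, Ideal.mem_span_singleton']
    exact ⟨η', h2⟩
  refine ⟨D, inferInstance, inferInstance, mk.comp θL, Units.map (mk : Lam[T;T⁻¹] →* D) (uT Lam),
    Units.map (mk.comp C : Lam →+* D) (uT ℚ), φ, ?_, ?_, ?_, ?_, ?_⟩
  · simp [hθT, uT_val]
  · have h1 : mk F = 0 := Ideal.Quotient.eq_zero_iff_mem.mpr (Ideal.mem_span_singleton_self F)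
    simp only [F, map_sub, map_sum, map_mul, map_natCast, sub_eq_zero] at h1
    rw [← h1]
    refine Finset.sum_congr rfl (fun i _ => ?_)
    simp only [← map_zpow, Units.val_mul, Units.coe_map, MonoidHom.coe_coe, uT_zpow]
    rfl
  · intro f
    exact hφθ f
  · change φL (C (T 1)) = 1
    simp [φL, ε, evL]
  · have hK : (⨅ j : ℕ, (Ideal.span {(T 1 - C (two : ℚ) : Lam)}) ^ j) = ⊥ := by
      apply Ideal.iInf_pow_eq_bot_of_isDomain
      intro h
      have h1 : (1 : Lam) ∈ Ideal.span {(T 1 - C (two : ℚ) : Lam)} := by rw [h]; trivial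
      obtain ⟨b, hb⟩ := Ideal.mem_span_singleton'.mp h1
      have := congrArg (evL two) hb
      rw [map_mul, evL_T_sub] at this
      simp at this
    have key : ∀ j : ℕ, ∀ ρ : Lam, ¬ (T 1 - C (two : ℚ) : Lam) ^ j ∣ ρ → ∀ ξ : D,
        mk (θL ρ) * ξ = 0 → φ ξ = 0 := by
      intro j
      induction j with
      | zero => intro ρ h; simp at h
      | succ j ih =>
        intro ρ h ξ hξ
        by_cases h1 : evL two ρ = 0
        · obtain ⟨ρ', rfl⟩ := dvd_of_evL two ρ h1
          refine ih ρ' (fun h2 => h ?_) ξ (hnz _ ?_)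
          · rw [pow_succ']; exact mul_dvd_mul_left _ h2
          · have e1 : θL (T 1 - C (two : ℚ)) = T 1 - C (two' : Lam) := by
              rw [map_sub, hθT]; simp [θL, two']
            rw [map_mul, map_mul, e1, mul_assoc] at hξ
            exact hξ
        · have h2 := congrArg φ hξ
          rw [map_mul, map_zero] at h2
          have h3 : φ (mk (θL ρ)) = evL two ρ := hφθ ρ
          rw [h3] at h2
          exact (mul_eq_zero.mp h2).resolve_left h1
    intro ρ hρ ξ hξ
    by_contra hne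
    apply hρ
    have : ρ ∈ (⨅ j : ℕ, (Ideal.span {(T 1 - C (two : ℚ) : Lam)}) ^ j) := by
      rw [Ideal.mem_iInf]
      intro j
      rw [Ideal.span_singleton_pow, Ideal.mem_span_singleton]
      by_contra h
      exact hne (key j ρ h ξ hξ)
    rw [hK] at this
    exact this

end Pool.Agent.P.MP_84759c_al
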