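import Mathlib

set_option autoImplicit false

namespace Pool.Agent.P.MP_84759c_al

/-- A total normal cone of a group: the positive cone of a bi-invariant total preorder. -/
structure IsTCone {G : Type*} [Group G] (C : G → Prop) : Prop where
  one : C 1
  mul : ∀ a b, C a → C b → C (a * b)
  conj : ∀ a g, C a → C (g * a * g⁻¹)
  total : ∀ a, C a ∨ C a⁻¹

/-- The kernel of a total normal cone. -/
def IsTCone.ker {G : Type*} [Group G] {C : G → Prop} (h : IsTCone C) : Subgroup G where
  carrier := {a | C a ∧ C a⁻¹}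
  one_mem' := ⟨h.one, by simpa using h.one⟩
  mul_mem' := by
    rintro a b ⟨ha, ha'⟩ ⟨hb, hb'⟩
    exact ⟨h.mul _ _ ha hb, by rw [mul_inv_rev]; exact h.mul _ _ hb' ha'⟩
  inv_mem' := by
    rintro a ⟨ha, ha'⟩
    exact ⟨ha', by simpa using ha⟩

theorem IsTCone.ker_normal {G : Type*} [Group G] {C : G → Prop} (h : IsTCone C) :
    h.ker.Normal := by
  refine ⟨fun a ha g => ⟨h.conj _ _ ha.1, ?_⟩⟩
  have := h.conj _ g ha.2
  simpa [mul_assoc] using this

/-- An antisymmetric total cone gives a linear order. -/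
theorem IsTCone.exists_order {H : Type} [Group H] {P : H → Prop} (h : IsTCone P)
    (anti : ∀ a, P a → P a⁻¹ → a = 1) :
    ∃ (_ : LinearOrder H), MulLeftMono H ∧ MulRightMono H ∧ ∀ a : H, 1 ≤ a ↔ P a := by
  classical
  let o : LinearOrder H :=
    { le := fun x y => P (x⁻¹ * y)
      le_refl := fun x => by simpa using h.one
      le_trans := fun x y z hxy hyz => by
        have := h.mul _ _ hxy hyz
        simpa [mul_assoc] using this
      le_antisymm := fun x y hxy hyx => by
        have := anti _ hxy (by simpa using hyx)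
        exact inv_mul_eq_one.mp this
      le_total := fun x y => by
        rcases h.total (x⁻¹ * y) with h1 | h1
        · exact Or.inl h1
        · exact Or.inr (by simpa using h1)
      toDecidableLE := Classical.decRel _ }
  refine ⟨o, ⟨fun c x y hxy => ?_⟩, ⟨fun c x y hxy => ?_⟩, fun a => ?_⟩
  · change P ((c * x)⁻¹ * (c * y))
    change P (x⁻¹ * y) at hxy
    simpa [mul_assoc] using hxy
  · change P ((x * c)⁻¹ * (y * c))
    change P (x⁻¹ * y) at hxy
    have := h.conj _ c⁻¹ hxy
    simpa [mul_assoc] using this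
  · change P (1⁻¹ * a) ↔ P a
    simp

/-- A total normal cone is the pull-back of the positive cone of a totally ordered quotient. -/
theorem IsTCone.exists_quot {G : Type} [Group G] {C : G → Prop} (h : IsTCone C) :
    ∃ (H : Type) (_ : Group H) (_ : LinearOrder H) (π : G →* H),
      MulLeftMono H ∧ MulRightMono H ∧ Function.Surjective π ∧ ∀ a, 1 ≤ π a ↔ C a := by
  have := h.ker_normal
  let π : G →* G ⧸ h.ker := QuotientGroup.mk' h.ker
  have hs : Function.Surjective π := QuotientGroup.mk'_surjective _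
  let P : G ⧸ h.ker → Prop := fun x => ∃ a, π a = x ∧ C a
  have hP : ∀ a, P (π a) ↔ C a := by
    intro a
    refine ⟨?_, fun ha => ⟨a, rfl, ha⟩⟩
    rintro ⟨b, hb, hCb⟩
    have : b⁻¹ * a ∈ h.ker := QuotientGroup.eq.mp hb
    have h2 := h.mul _ _ hCb this.1
    simpa using h2
  have hT : IsTCone P := by
    refine ⟨⟨1, map_one _, h.one⟩, ?_, ?_, ?_⟩
    · rintro _ _ ⟨a, rfl, ha⟩ ⟨b, rfl, hb⟩
      exact ⟨a * b, map_mul _ _ _, h.mul _ _ ha hb⟩
    · rintro _ g ⟨a, rfl, ha⟩
      obtain ⟨g, rfl⟩ := hs g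
      exact ⟨g * a * g⁻¹, by simp, h.conj _ _ ha⟩
    · intro a
      obtain ⟨a, rfl⟩ := hs a
      rcases h.total a with h1 | h1
      · exact Or.inl ⟨a, rfl, h1⟩
      · exact Or.inr ⟨a⁻¹, by simp, h1⟩
  have anti : ∀ a, P a → P a⁻¹ → a = 1 := by
    intro a h1 h2
    obtain ⟨a, rfl⟩ := hs a
    rw [← map_inv, hP] at h2
    rw [hP] at h1
    exact (QuotientGroup.eq_one_iff a).mpr ⟨h1, h2⟩
  obtain ⟨o, h1, h2, h3⟩ := hT.exists_order anti
  exact ⟨G ⧸ h.ker, inferInstance, o, π, h1, h2, hs, fun a => (h3 _).trans (hP a)⟩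

/-- A finite descending chain of predicates certifying nilpotency of a quotient. -/
theorem nilpotent_of_chain {G H : Type*} [Group G] [Group H] (π : G →* H)
    (hs : Function.Surjective π) (K : ℕ → G → Prop) (M : ℕ) (h0 : ∀ a, K 0 a)
    (hstep : ∀ j a b, K j a → K (j + 1) (a * b * a⁻¹ * b⁻¹))
    (hM : ∀ a, K M a → π a = 1) : Group.IsNilpotent H := by
  have key : ∀ i, i ≤ M → ∀ a, K (M - i) a → π a ∈ Subgroup.upperCentralSeries H i := by
    intro i
    induction i with
    | zero => intro _ a ha; simpa using hM a ha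
    | succ i ih =>
      intro hi a ha
      rw [Subgroup.mem_upperCentralSeries_succ_iff]
      intro y
      obtain ⟨b, rfl⟩ := hs y
      have h1 := hstep _ a b ha
      have h2 : M - (i + 1) + 1 = M - i := by omega
      rw [h2] at h1
      simpa [commutatorElement_def] using ih (by omega) _ h1
  refine ⟨⟨M, ?_⟩⟩
  rw [eq_top_iff]
  intro y _
  obtain ⟨b, rfl⟩ := hs y
  exact key M le_rfl b (by simpa using h0 b)

/-- Induction principle along the upper central series. -/
theorem nil_ind {H : Type*} [Group H] [hH : Group.IsNilpotent H] (g : H) (Q : H → Prop)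
    (h1 : Q 1) (hs : ∀ x, Q (x⁻¹ * g * x * g⁻¹) → Q x) : ∀ x, Q x := by
  obtain ⟨n, hn⟩ := hH.nilpotent'
  have key : ∀ k, ∀ x ∈ Subgroup.upperCentralSeries H k, Q x := by
    intro k
    induction k with
    | zero => intro x hx; simp at hx; rw [hx]; exact h1
    | succ k ih =>
      intro x hx
      apply hs
      apply ih
      have := (Subgroup.mem_upperCentralSeries_succ_iff.mp (inv_mem hx)) g
      simpa [commutatorElement_def] using this
  intro x
  exact key n x (by rw [hn]; trivial)

end Pool.Agent.P.MP_84759c_al
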