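import Mathlib
import Pool.Agent.P.MP_84759c_al.Cone

set_option autoImplicit false

namespace Pool.Agent.P.MP_84759c_al

section
variable {H : Type*} [Group H] [Lattice H] [MulLeftMono H] [MulRightMono H]

theorem mul_inf_le_mul {x y b : H} (hx : 1 ≤ x) (hy : 1 ≤ y) (hb : 1 ≤ b) :
    (x * y) ⊓ b ≤ (x ⊓ b) * (y ⊓ b) := by
  rw [inf_mul, mul_inf, mul_inf]
  refine le_inf (le_inf inf_le_left ?_) (le_inf ?_ ?_)
  · exact inf_le_right.trans (le_mul_of_one_le_left' hx)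
  · exact inf_le_right.trans (le_mul_of_one_le_right' hy)
  · exact inf_le_right.trans (le_mul_of_one_le_right' hb)

theorem mul_sup_one_le (x y : H) : (x * y) ⊔ 1 ≤ (x ⊔ 1) * (y ⊔ 1) := by
  refine sup_le (mul_le_mul' le_sup_left le_sup_left) ?_
  exact one_le_mul le_sup_right le_sup_right

/-- Down-closed submonoids closed under positive parts (the down-closures of convex
lattice subgroups). -/
structure IsLow (P : Set H) : Prop where
  one : (1 : H) ∈ P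
  mul : ∀ a b, a ∈ P → b ∈ P → a * b ∈ P
  down : ∀ a b, a ∈ P → b ≤ a → b ∈ P
  pos : ∀ a, a ∈ P → a ⊔ 1 ∈ P

theorem IsLow.colon {P : Set H} (h : IsLow P) {b : H} (hb : 1 ≤ b) :
    IsLow {x | (x ⊔ 1) ⊓ b ∈ P} := by
  refine ⟨?_, ?_, ?_, ?_⟩
  · exact h.down _ _ h.one (by simp)
  · intro x y hx hy
    refine h.down _ _ (h.mul _ _ hx hy) ?_
    exact (inf_le_inf_right _ (mul_sup_one_le x y)).trans
      (mul_inf_le_mul le_sup_right le_sup_right hb)
  · intro x y hx hxy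
    exact h.down _ _ hx (inf_le_inf_right _ (sup_le_sup_right hxy _))
  · intro x hx
    simpa [sup_assoc] using hx

theorem exists_prime {n : H} (hn1 : 1 ≤ n) (hn : ¬ n ≤ 1) :
    ∃ P : Set H, IsLow P ∧ n ∉ P ∧
      ∀ a b : H, 1 ≤ a → 1 ≤ b → a ⊓ b ∈ P → a ∈ P ∨ b ∈ P := by
  have h0 : {x : H | x ≤ 1} ∈ {P : Set H | IsLow P ∧ n ∉ P} := by
    refine ⟨⟨le_refl (1 : H), ?_, ?_, ?_⟩, hn⟩
    · intro a b ha hb; exact mul_le_one' ha hb
    · intro a b ha hb; exact le_trans hb ha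
    · intro a ha; exact sup_le ha le_rfl
  obtain ⟨P, -, hP⟩ := zorn_subset_nonempty {P : Set H | IsLow P ∧ n ∉ P} (by
    intro c hc hch hne
    refine ⟨⋃₀ c, ⟨⟨?_, ?_, ?_, ?_⟩, ?_⟩, fun s hs => Set.subset_sUnion_of_mem hs⟩
    · obtain ⟨s, hs⟩ := hne
      exact ⟨s, hs, (hc hs).1.one⟩
    · rintro a b ⟨s, hs, ha⟩ ⟨t, ht, hb⟩
      rcases hch.total hs ht with hst | hst
      · exact ⟨t, ht, (hc ht).1.mul _ _ (hst ha) hb⟩
      · exact ⟨s, hs, (hc hs).1.mul _ _ ha (hst hb)⟩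
    · rintro a b ⟨s, hs, ha⟩ hb
      exact ⟨s, hs, (hc hs).1.down _ _ ha hb⟩
    · rintro a ⟨s, hs, ha⟩
      exact ⟨s, hs, (hc hs).1.pos _ ha⟩
    · rintro ⟨s, hs, ha⟩
      exact (hc hs).2 ha) _ h0
  have hL : IsLow P := hP.prop.1
  have hnP : n ∉ P := hP.prop.2
  have hsub : ∀ b : H, P ⊆ {x | (x ⊔ 1) ⊓ b ∈ P} := fun b x hx =>
    hL.down _ _ (hL.pos _ hx) inf_le_left
  refine ⟨P, hL, hnP, ?_⟩
  intro a b ha hb hab
  by_contra hcon
  push Not at hcon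
  have h1 : n ∈ {x | (x ⊔ 1) ⊓ b ∈ P} := by
    by_contra h1
    have := hP.le_of_ge (y := {x | (x ⊔ 1) ⊓ b ∈ P}) ⟨hL.colon hb, h1⟩ (hsub b)
    exact hcon.1 (this (by simpa [sup_of_le_left ha] using hab))
  have h2 : n ∉ {x | (x ⊔ 1) ⊓ n ∈ P} := by
    simpa [sup_of_le_left hn1] using hnP
  have := hP.le_of_ge (y := {x | (x ⊔ 1) ⊓ n ∈ P}) ⟨hL.colon hn1, h2⟩ (hsub n)
  refine hcon.2 (this ?_)
  simpa [sup_of_le_left hn1, sup_of_le_left hb, inf_comm] using h1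

theorem pos_inf_neg (x : H) : (x ⊔ 1) ⊓ (x⁻¹ ⊔ 1) = 1 := oneLePart_inf_leOnePart_eq_one x

theorem prime_total {P : Set H} (hL : IsLow P)
    (hp : ∀ a b : H, 1 ≤ a → 1 ≤ b → a ⊓ b ∈ P → a ∈ P ∨ b ∈ P) (x : H) :
    x ∈ P ∨ x⁻¹ ∈ P := by
  rcases hp (x ⊔ 1) (x⁻¹ ⊔ 1) le_sup_right le_sup_right (by rw [pos_inf_neg]; exact hL.one) with
    h | h
  · exact Or.inl (hL.down _ _ h le_sup_left)
  · exact Or.inr (hL.down _ _ h le_sup_left)

theorem conj_inf (g a b : H) : g * (a ⊓ b) * g⁻¹ = (g * a * g⁻¹) ⊓ (g * b * g⁻¹) := by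
  rw [mul_inf, inf_mul]

theorem conj_sup (g a b : H) : g * (a ⊔ b) * g⁻¹ = (g * a * g⁻¹) ⊔ (g * b * g⁻¹) := by
  rw [mul_sup, sup_mul]

theorem one_le_conj {g a : H} (ha : 1 ≤ a) : 1 ≤ g * a * g⁻¹ := by
  have : g * 1 * g⁻¹ ≤ g * a * g⁻¹ := by gcongr
  simpa using this

end

section
variable {H : Type*} [Group H]

theorem conj_pow_succ (g x : H) (i : ℕ) :
    g ^ (i + 1) * x * (g ^ (i + 1))⁻¹ =
      (g ^ i * x * (g ^ i)⁻¹) * (g ^ i * (x⁻¹ * g * x * g⁻¹) * (g ^ i)⁻¹) := by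
  rw [pow_succ]; group

/-- In a nilpotent group, for a total submonoid `P`, the conjugates of `x` by the powers of `g`
are eventually inside or eventually outside of `P`. -/
theorem eventually_sign [Group.IsNilpotent H] {P : Set H} (h1 : (1 : H) ∈ P)
    (hm : ∀ a b, a ∈ P → b ∈ P → a * b ∈ P) (ht : ∀ x, x ∈ P ∨ x⁻¹ ∈ P) (g x : H) :
    (∃ N, ∀ i ≥ N, g ^ i * x * (g ^ i)⁻¹ ∈ P) ∨ (∃ N, ∀ i ≥ N, g ^ i * x * (g ^ i)⁻¹ ∉ P) := by
  refine nil_ind g (fun x => (∃ N, ∀ i ≥ N, g ^ i * x * (g ^ i)⁻¹ ∈ P) ∨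
    (∃ N, ∀ i ≥ N, g ^ i * x * (g ^ i)⁻¹ ∉ P)) (Or.inl ⟨0, fun i _ => by simpa using h1⟩) ?_ x
  intro x hx
  rcases hx with ⟨N, hN⟩ | ⟨N, hN⟩
  · by_cases h : ∃ j ≥ N, g ^ j * x * (g ^ j)⁻¹ ∈ P
    · obtain ⟨j, hj, hjP⟩ := h
      refine Or.inl ⟨j, fun i hi => ?_⟩
      induction i, hi using Nat.le_induction with
      | base => exact hjP
      | succ i hi ih => rw [conj_pow_succ]; exact hm _ _ ih (hN i (by omega))
    · push Not at h
      exact Or.inr ⟨N, h⟩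
  · by_cases h : ∃ j ≥ N, g ^ j * x * (g ^ j)⁻¹ ∉ P
    · obtain ⟨j, hj, hjP⟩ := h
      refine Or.inr ⟨j, fun i hi => ?_⟩
      induction i, hi using Nat.le_induction with
      | base => exact hjP
      | succ i hi ih =>
        intro hc
        apply ih
        rw [conj_pow_succ] at hc
        have h2 := (ht _).resolve_left (hN i (by omega))
        have h3 := hm _ _ hc h2
        rwa [mul_inv_cancel_right] at h3
    · push Not at h
      exact Or.inl ⟨N, h⟩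

theorem mem_of_eventually [Group.IsNilpotent H] (K : Subgroup H) (g x : H)
    (h : ∃ N, ∀ i ≥ N, g ^ i * x * (g ^ i)⁻¹ ∈ K) : ∀ i : ℕ, g ^ i * x * (g ^ i)⁻¹ ∈ K := by
  revert h
  refine nil_ind g (fun x => (∃ N, ∀ i ≥ N, g ^ i * x * (g ^ i)⁻¹ ∈ K) →
    ∀ i : ℕ, g ^ i * x * (g ^ i)⁻¹ ∈ K) (fun _ i => by simp) ?_ x
  rintro x ih ⟨N, hN⟩
  have hy := ih ⟨N, fun i hi => by
    have h1 := hN (i + 1) (by omega)
    rw [conj_pow_succ] at h1
    exact (K.mul_mem_cancel_left (hN i hi)).mp h1⟩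
  have key : ∀ j, j ≤ N → g ^ (N - j) * x * (g ^ (N - j))⁻¹ ∈ K := by
    intro j
    induction j with
    | zero => intro _; exact hN _ (by omega)
    | succ j ihj =>
      intro hj
      have h1 := ihj (by omega)
      have h2 : N - j = N - (j + 1) + 1 := by omega
      rw [h2, conj_pow_succ] at h1
      exact (K.mul_mem_cancel_right (hy _)).mp h1
  intro i
  by_cases hi : N ≤ i
  · exact hN i hi
  · have := key (N - i) (by omega)
    have h2 : N - (N - i) = i := by omega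
    rwa [h2] at this

end

section
variable {H : Type*} [Group H] [Lattice H] [MulLeftMono H] [MulRightMono H]

theorem eq_one_of_inf_conj [Group.IsNilpotent H] {a g : H} (ha : 1 ≤ a)
    (h : a ⊓ (g * a * g⁻¹) = 1) : a = 1 := by
  by_contra hne
  have hn : ¬ a ≤ 1 := fun h1 => hne (le_antisymm h1 ha)
  obtain ⟨P, hL, haP, hp⟩ := exists_prime ha hn
  have ht := prime_total hL hp
  let K : Subgroup H :=
    { carrier := {x | x ∈ P ∧ x⁻¹ ∈ P}
      one_mem' := ⟨hL.one, by simpa using hL.one⟩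
      mul_mem' := by
        rintro x y ⟨hx, hx'⟩ ⟨hy, hy'⟩
        exact ⟨hL.mul _ _ hx hy, by rw [mul_inv_rev]; exact hL.mul _ _ hy' hx'⟩
      inv_mem' := by
        rintro x ⟨hx, hx'⟩
        exact ⟨hx', by simpa using hx⟩ }
  rcases eventually_sign hL.one hL.mul ht g a with ⟨N, hN⟩ | ⟨N, hN⟩
  · have h1 := mem_of_eventually K g a ⟨N, fun i hi => ⟨hN i hi,
      hL.down _ _ hL.one (by rw [inv_le_one']; exact one_le_conj ha)⟩⟩ 0
    exact haP (by simpa using h1.1)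
  · have h1 : (g ^ N * a * (g ^ N)⁻¹) ⊓ (g ^ (N + 1) * a * (g ^ (N + 1))⁻¹) = 1 := by
      have h2 : g ^ (N + 1) * a * (g ^ (N + 1))⁻¹ = g ^ N * (g * a * g⁻¹) * (g ^ N)⁻¹ := by
        rw [pow_succ]; group
      rw [h2, ← conj_inf, h]; simp
    rcases hp _ _ (one_le_conj ha) (one_le_conj ha) (by rw [h1]; exact hL.one) with h3 | h3
    · exact hN N le_rfl h3
    · exact hN (N + 1) (by omega) h3

/-- Nilpotent lattice-ordered groups are representable. -/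
theorem conj_inf_eq_one [Group.IsNilpotent H] {a b : H} (ha : 1 ≤ a) (hb : 1 ≤ b)
    (h : a ⊓ b = 1) (g : H) : (g * a * g⁻¹) ⊓ b = 1 := by
  have hc : 1 ≤ (g * a * g⁻¹) ⊓ b := le_inf (one_le_conj ha) hb
  refine eq_one_of_inf_conj (g := g⁻¹) hc (le_antisymm ?_ (le_inf hc (one_le_conj hc)))
  rw [← h, inf_comm a b]
  refine inf_le_inf inf_le_right ?_
  rw [conj_inf]
  refine inf_le_left.trans (le_of_eq ?_)
  group

/-- In a nilpotent lattice-ordered group an element that is not positive can be made negative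
for a total normal cone that extends the order. -/
theorem exists_tcone [Group.IsNilpotent H] {u : H} (hu : ¬ 1 ≤ u) :
    ∃ C : H → Prop, IsTCone C ∧ ∀ x ≤ u, ¬ C x := by
  have hn : ¬ u⁻¹ ⊔ 1 ≤ 1 := by
    intro h
    exact hu (by simpa using h)
  obtain ⟨P, hL, hnP, hp⟩ := exists_prime (le_sup_right : 1 ≤ u⁻¹ ⊔ 1) hn
  refine ⟨fun x => ∀ g, g * x⁻¹ * g⁻¹ ∈ P, ⟨?_, ?_, ?_, ?_⟩, ?_⟩
  · intro g; simpa using hL.one
  · intro a b ha hb g
    have := hL.mul _ _ (hb g) (ha g)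
    convert this using 1
    group
  · intro a g ha h
    have := ha (h * g)
    convert this using 1
    group
  · intro x
    by_contra hcon
    push Not at hcon
    obtain ⟨⟨g, hg⟩, ⟨h, hh⟩⟩ := hcon
    rw [inv_inv] at hh
    have e1 : (h * (x ⊔ 1) * h⁻¹) ⊓ (x⁻¹ ⊔ 1) = 1 :=
      conj_inf_eq_one le_sup_right le_sup_right (pos_inf_neg x) h
    rw [inf_comm] at e1
    have e2 := conj_inf_eq_one le_sup_right (one_le_conj le_sup_right) e1 g
    rcases hp _ _ (one_le_conj le_sup_right) (one_le_conj le_sup_right)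
      (by rw [e2]; exact hL.one) with h3 | h3
    · exact hg (hL.down _ _ h3 (by gcongr; exact le_sup_left))
    · exact hh (hL.down _ _ h3 (by gcongr; exact le_sup_left))
  · intro x hx hC
    have h1 : x⁻¹ ∈ P := by simpa using hC 1
    exact hnP (hL.pos _ (hL.down _ _ h1 (inv_le_inv_iff.mpr hx)))

end

end Pool.Agent.P.MP_84759c_al
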