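import Mathlib
import Pool.Agent.P.MP_84759c_al.Cone

set_option autoImplicit false

open scoped commutatorElement

namespace Pool.Agent.P.MP_84759c_al

section
variable {N : Type*} [Group N] [LinearOrder N] [MulLeftMono N] [MulRightMono N]

theorem one_le_conj' {g a : N} (ha : 1 ≤ a) : 1 ≤ g * a * g⁻¹ := by
  have : g * 1 * g⁻¹ ≤ g * a * g⁻¹ := by gcongr
  simpa using this

theorem le_mul_conj {b : N} (hb : ∀ h, h * b * h⁻¹ ≤ b * b) (h k : N) :
    b ≤ (h * b * h⁻¹) * (k * b * k⁻¹) := by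
  have key : ∀ h : N, b ≤ (h * b * h⁻¹) * (h * b * h⁻¹) := by
    intro h
    have h1 : h * (h⁻¹ * b * h⁻¹⁻¹) * h⁻¹ ≤ h * (b * b) * h⁻¹ :=
      mul_le_mul' (mul_le_mul' le_rfl (hb _)) le_rfl
    convert h1 using 1 <;> group
  rcases le_total (h * b * h⁻¹) (k * b * k⁻¹) with h1 | h1
  · exact (key h).trans (by gcongr)
  · exact (key k).trans (by gcongr)

theorem pow_le_of_comm_neg {a g : N} (ha : 1 ≤ a)
    (hb : ∀ h, h * (a⁻¹ * g * a * g⁻¹)⁻¹ * h⁻¹ ≤ (a⁻¹ * g * a * g⁻¹)⁻¹ * (a⁻¹ * g * a * g⁻¹)⁻¹)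
    (m : ℕ) : (a⁻¹ * g * a * g⁻¹)⁻¹ ^ m ≤ a := by
  set b := (a⁻¹ * g * a * g⁻¹)⁻¹ with hbdef
  have step : ∀ i : ℕ, (g ^ (i + 1) * a * (g ^ (i + 1))⁻¹)⁻¹ * a =
      (g ^ i * b * (g ^ i)⁻¹) * ((g ^ i * a * (g ^ i)⁻¹)⁻¹ * a) := by
    intro i; rw [hbdef, pow_succ]; group
  have key : b ^ m ≤ (g ^ (2 * m) * a * (g ^ (2 * m))⁻¹)⁻¹ * a := by
    induction m with
    | zero => simp
    | succ m ih =>
      have e : 2 * (m + 1) = 2 * m + 1 + 1 := by ring
      rw [e, step, step, ← mul_assoc, pow_succ']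
      exact mul_le_mul' (le_mul_conj hb _ _) ih
  refine key.trans ?_
  exact mul_le_of_le_one_left' (by rw [inv_le_one']; exact one_le_conj' ha)

theorem comm_small (Z : Subgroup N)
    (hZ : ∀ b ∈ Z, 1 ≤ b → ∀ h, h * b * h⁻¹ ≤ b * b) {a : N} (ha : 1 ≤ a)
    (hc : ∀ g, a⁻¹ * g * a * g⁻¹ ∈ Z) (g : N) (m : ℕ) :
    (a⁻¹ * g * a * g⁻¹) ^ m ≤ a ∧ (a⁻¹ * g * a * g⁻¹)⁻¹ ^ m ≤ a := by
  rcases le_total (a⁻¹ * g * a * g⁻¹) 1 with h | h
  · refine ⟨(pow_le_one' h m).trans ha, pow_le_of_comm_neg ha ?_ m⟩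
    exact hZ _ (inv_mem (hc g)) (by rw [one_le_inv']; exact h)
  · refine ⟨?_, (pow_le_one' (by rw [inv_le_one']; exact h) m).trans ha⟩
    have e1 : (a⁻¹ * g⁻¹ * a * g⁻¹⁻¹)⁻¹ = g⁻¹ * (a⁻¹ * g * a * g⁻¹) * g⁻¹⁻¹ := by group
    have h1 : 1 ≤ (a⁻¹ * g⁻¹ * a * g⁻¹⁻¹)⁻¹ := by rw [e1]; exact one_le_conj' h
    have h2 := hZ _ (inv_mem (hc g⁻¹)) h1
    have h3 := pow_le_of_comm_neg ha h2 (2 * m)
    refine le_trans ?_ h3
    rw [pow_mul, pow_two]
    refine pow_le_pow_left' ?_ m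
    refine le_trans (le_of_eq ?_) (h2 g)
    group

/-- Nilpotent ordered groups are weakly abelian. -/
theorem weakly_abelian [hN : Group.IsNilpotent N] {a : N} (ha : 1 ≤ a) (h : N) :
    h * a * h⁻¹ ≤ a * a := by
  obtain ⟨n, hn⟩ := hN.nilpotent'
  have key : ∀ k, ∀ b ∈ Subgroup.upperCentralSeries N k, 1 ≤ b → ∀ h, h * b * h⁻¹ ≤ b * b := by
    intro k
    induction k with
    | zero => intro b hb _ h; simp at hb; simp [hb]
    | succ k ih =>
      intro b hb hb1 h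
      have hc : ∀ g, b⁻¹ * g * b * g⁻¹ ∈ Subgroup.upperCentralSeries N k := by
        intro g
        have := (Subgroup.mem_upperCentralSeries_succ_iff.mp (inv_mem hb)) g
        simpa [commutatorElement_def] using this
      have h1 := (comm_small _ ih hb1 hc h 1).1
      rw [pow_one] at h1
      have h2 : b * (b⁻¹ * h * b * h⁻¹) ≤ b * b := by gcongr
      convert h2 using 1
      group
  exact key n a (by rw [hn]; trivial) ha h

theorem small_mul {d w v : N} (hw : ∀ m : ℕ, w ^ m ≤ d) (hv : ∀ m : ℕ, v ^ m ≤ d) (m : ℕ) :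
    (w * v) ^ m ≤ d := by
  rcases le_total w v with h | h
  · refine le_trans ?_ (hv (2 * m))
    rw [pow_mul, pow_two]
    exact pow_le_pow_left' (by gcongr) m
  · refine le_trans ?_ (hw (2 * m))
    rw [pow_mul, pow_two]
    exact pow_le_pow_left' (by gcongr) m

theorem small_conj [Group.IsNilpotent N] {d w : N} (hw : ∀ m : ℕ, w ^ m ≤ d) (h : N) (m : ℕ) :
    (h * w * h⁻¹) ^ m ≤ d := by
  rcases le_total w 1 with h1 | h1
  · have h2 : h * w * h⁻¹ ≤ h * 1 * h⁻¹ := by gcongr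
    have h3 : (1 : N) ≤ d := by simpa using hw 0
    exact (pow_le_one' (by simpa using h2) m).trans h3
  · refine le_trans ?_ (hw (2 * m))
    rw [pow_mul, pow_two]
    exact pow_le_pow_left' (weakly_abelian h1 h) m

/-- The elements that are infinitely small with respect to `d`. -/
def smallSub {d : N} (hd : 1 ≤ d) : Subgroup N where
  carrier := {w | (∀ m : ℕ, w ^ m ≤ d) ∧ ∀ m : ℕ, w⁻¹ ^ m ≤ d}
  one_mem' := by simpa using hd
  mul_mem' := by
    rintro a b ⟨ha, ha'⟩ ⟨hb, hb'⟩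
    exact ⟨small_mul ha hb, by rw [mul_inv_rev]; exact small_mul hb' ha'⟩
  inv_mem' := by
    rintro a ⟨ha, ha'⟩
    exact ⟨ha', by simpa using ha⟩

theorem smallSub_normal [Group.IsNilpotent N] {d : N} (hd : 1 ≤ d) : (smallSub hd).Normal := by
  refine ⟨fun w hw h => ⟨small_conj hw.1 h, ?_⟩⟩
  have e : (h * w * h⁻¹)⁻¹ = h * w⁻¹ * h⁻¹ := by group
  rw [e]
  exact small_conj hw.2 h

theorem comm_mem_smallSub [Group.IsNilpotent N] {d a : N} (hd : 1 ≤ d) (ha : 1 ≤ a)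
    (had : a ≤ d) (g : N) : a⁻¹ * g * a * g⁻¹ ∈ smallSub hd := by
  have h := comm_small ⊤ (fun b _ hb h => weakly_abelian hb h) ha (fun _ => trivial) g
  exact ⟨fun m => (h m).1.trans had, fun m => (h m).2.trans had⟩

theorem central_mod_small [Group.IsNilpotent N] {d r : N} (hd : 1 ≤ d) (h1 : r ≤ d)
    (h2 : r⁻¹ ≤ d) {M : Type*} [Group M] (π : N →* M) (hs : Function.Surjective π)
    (hπ : ∀ w ∈ smallSub hd, π w = 1) : π r ∈ Subgroup.center M := by
  have key : ∀ a : N, 1 ≤ a → a ≤ d → π a ∈ Subgroup.center M := by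
    intro a ha had
    rw [Subgroup.mem_center_iff]
    intro g
    obtain ⟨g, rfl⟩ := hs g
    have := hπ _ (comm_mem_smallSub hd ha had g)
    simp only [map_mul, map_inv] at this
    have h3 : π g * π a = π a * ((π a)⁻¹ * π g * π a * (π g)⁻¹) * π g := by group
    rw [h3, this, mul_one]
  rcases le_total 1 r with h | h
  · exact key r h h1
  · have := key r⁻¹ (by rw [one_le_inv']; exact h) h2
    rw [map_inv] at this
    simpa using inv_mem this

end

/-- The exponents `1, -1, -1, 0, 0, ...`. -/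
def ex (i : ℕ) : ℤ := if i = 0 then 1 else if i ≤ 2 then -1 else 0

section
variable {N : Type*} [Group N]

theorem comm_congr_left {x x' y : N} (h : x⁻¹ * x' ∈ Subgroup.center N) : ⁅x', y⁆ = ⁅x, y⁆ := by
  have e : x' = x * (x⁻¹ * x') := by group
  have hc := Subgroup.mem_center_iff.mp h
  generalize x⁻¹ * x' = z at e hc
  rw [e, commutatorElement_def, commutatorElement_def]
  calc x * z * y * (x * z)⁻¹ * y⁻¹ = x * (z * y) * z⁻¹ * x⁻¹ * y⁻¹ := by group
    _ = x * (y * z) * z⁻¹ * x⁻¹ * y⁻¹ := by rw [hc y]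
    _ = _ := by group

theorem comm_congr_right {x y y' : N} (h : y' * y⁻¹ ∈ Subgroup.center N) : ⁅x, y'⁆ = ⁅x, y⁆ := by
  have e : y' = (y' * y⁻¹) * y := by group
  have hc := Subgroup.mem_center_iff.mp h
  generalize y' * y⁻¹ = z at e hc
  rw [e, commutatorElement_def, commutatorElement_def]
  calc x * (z * y) * x⁻¹ * (z * y)⁻¹ = (x * z) * y * x⁻¹ * y⁻¹ * z⁻¹ := by group
    _ = (z * x) * y * x⁻¹ * y⁻¹ * z⁻¹ := by rw [hc x]
    _ = z * (x * y * x⁻¹ * y⁻¹) * z⁻¹ := by group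
    _ = (x * y * x⁻¹ * y⁻¹) * z * z⁻¹ := by rw [hc (x * y * x⁻¹ * y⁻¹)]
    _ = _ := by group

theorem comm_mul_right {x y y' : N} (h : ⁅x, y'⁆ ∈ Subgroup.center N) :
    ⁅x, y * y'⁆ = ⁅x, y⁆ * ⁅x, y'⁆ := by
  have hc := Subgroup.mem_center_iff.mp h
  calc ⁅x, y * y'⁆ = ⁅x, y⁆ * (y * ⁅x, y'⁆) * y⁻¹ := by simp only [commutatorElement_def]; group
    _ = ⁅x, y⁆ * (⁅x, y'⁆ * y) * y⁻¹ := by rw [hc y]
    _ = _ := by group

theorem comm_inv_mul_left {x x' y : N} (h : ⁅x, y⁆ ∈ Subgroup.center N)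
    (h' : ⁅x', y⁆ ∈ Subgroup.center N) : ⁅x⁻¹ * x', y⁆ = ⁅x, y⁆⁻¹ * ⁅x', y⁆ := by
  have hc := Subgroup.mem_center_iff.mp (mul_mem h' (inv_mem h))
  have hc2 := Subgroup.mem_center_iff.mp h'
  calc ⁅x⁻¹ * x', y⁆ = (x⁻¹ * (⁅x', y⁆ * ⁅x, y⁆⁻¹)) * x := by
        simp only [commutatorElement_def]; group
    _ = ((⁅x', y⁆ * ⁅x, y⁆⁻¹) * x⁻¹) * x := by rw [hc x⁻¹]
    _ = ⁅x', y⁆ * ⁅x, y⁆⁻¹ := by group
    _ = _ := by rw [hc2]

theorem comm_pow_right {x y : N} (h : ⁅x, y⁆ ∈ Subgroup.center N) (n : ℕ) :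
    ⁅x, y ^ n⁆ = ⁅x, y⁆ ^ n := by
  induction n with
  | zero => simp
  | succ n ih => rw [pow_succ, comm_mul_right h, ih, pow_succ]

theorem comm_range_prod {x : N} (f : ℕ → N) (n : ℕ)
    (h : ∀ i < n, ⁅x, f i⁆ ∈ Subgroup.center N) :
    ⁅x, ((List.range n).map f).prod⁆ = ((List.range n).map (fun i => ⁅x, f i⁆)).prod := by
  induction n with
  | zero => simp
  | succ n ih =>
    rw [List.range_succ, List.map_append, List.map_append, List.prod_append, List.prod_append]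
    simp only [List.map_cons, List.map_nil, List.prod_cons, List.prod_nil, mul_one]
    rw [comm_mul_right (h n (by omega)), ih (fun i hi => h i (by omega))]

theorem range_prod_ex (b : ℤ → N) (j : ℤ) (k : ℕ) :
    ((List.range (k + 3)).map (fun i => b (j + ex i))).prod =
      b (j + 1) * b (j - 1) * b (j - 1) * b j ^ k := by
  induction k with
  | zero => simp [List.range_succ, ex, mul_assoc, sub_eq_add_neg]
  | succ k ih =>
    have e : k + 1 + 3 = (k + 3) + 1 := by ring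
    rw [e, List.range_succ, List.map_append, List.prod_append, ih]
    have : ex (k + 3) = 0 := by simp [ex]
    simp [this, pow_succ, mul_assoc]

theorem conj_shift {M : Type*} [Group M] {x a t : M} {e : ℤ} (h1 : Commute x (a ^ (-e) * t))
    (h2 : Commute a t) (j : ℤ) :
    t⁻¹ * (a ^ (-j) * x * a ^ j) * t = a ^ (-(j + e)) * x * a ^ (j + e) := by
  have h3 : Commute a (a ^ (-e) * t) := Commute.mul_right (Commute.self_zpow a _) h2
  have e1 : t = a ^ e * (a ^ (-e) * t) := by group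
  generalize a ^ (-e) * t = s at h1 h3 e1
  have h4 : Commute (a ^ (-(j + e)) * x * a ^ (j + e)) s :=
    ((h3.zpow_left _).mul_left h1).mul_left (h3.zpow_left _)
  rw [e1]
  calc (a ^ e * s)⁻¹ * (a ^ (-j) * x * a ^ j) * (a ^ e * s)
      = s⁻¹ * ((a ^ (-(j + e)) * x * a ^ (j + e)) * s) := by group
    _ = s⁻¹ * (s * (a ^ (-(j + e)) * x * a ^ (j + e))) := by rw [h4.eq]
    _ = _ := by group

theorem doubling_trivial [Group.IsNilpotent N] (a y ξ : N)
    (hc : ∀ j : ℤ, ⁅a ^ (-j) * ξ * a ^ j, y⁆ ∈ Subgroup.center N)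
    (hd : ∀ j : ℤ, ⁅a ^ (-(j + 1)) * ξ * a ^ (j + 1), y⁆ =
      ⁅a ^ (-j) * ξ * a ^ j, y⁆ * ⁅a ^ (-j) * ξ * a ^ j, y⁆) :
    ∀ j : ℤ, ⁅a ^ (-j) * ξ * a ^ j, y⁆ = 1 := by
  revert hc hd
  refine nil_ind a⁻¹ (fun ξ => (∀ j : ℤ, ⁅a ^ (-j) * ξ * a ^ j, y⁆ ∈ Subgroup.center N) →
    (∀ j : ℤ, ⁅a ^ (-(j + 1)) * ξ * a ^ (j + 1), y⁆ =
      ⁅a ^ (-j) * ξ * a ^ j, y⁆ * ⁅a ^ (-j) * ξ * a ^ j, y⁆) →
    ∀ j : ℤ, ⁅a ^ (-j) * ξ * a ^ j, y⁆ = 1) (fun _ _ j => by simp) ?_ ξ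
  intro ξ ih hc hd
  have e : ∀ j : ℤ, ⁅a ^ (-j) * (ξ⁻¹ * a⁻¹ * ξ * a⁻¹⁻¹) * a ^ j, y⁆ =
      ⁅a ^ (-j) * ξ * a ^ j, y⁆ := by
    intro j
    have e1 : a ^ (-j) * (ξ⁻¹ * a⁻¹ * ξ * a⁻¹⁻¹) * a ^ j =
        (a ^ (-j) * ξ * a ^ j)⁻¹ * (a ^ (-(j + 1)) * ξ * a ^ (j + 1)) := by group
    rw [e1, comm_inv_mul_left (hc j) (hc (j + 1)), hd, inv_mul_cancel_left]
  have := ih (fun j => by rw [e]; exact hc j) (fun j => by rw [e, e]; exact hd j)
  intro j
  rw [← e]
  exact this j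

theorem const_of_central [Group.IsNilpotent N] (x y a : N) (t : ℕ → N) (k : ℕ)
    (hx : ∀ i < k + 3, ⁅x, a ^ (-ex i) * t i⁆ ∈ Subgroup.center N)
    (ha : ∀ i < k + 3, ⁅a, t i⁆ ∈ Subgroup.center N)
    (hy : ((List.range (k + 3)).map (fun i => t i * y * (t i)⁻¹)).prod * (y ^ (k + 3))⁻¹ ∈
      Subgroup.center N)
    (hb : ∀ j : ℤ, ⁅a ^ (-j) * x * a ^ j, y⁆ ∈ Subgroup.center N) :
    ∀ j : ℤ, ⁅a ^ (-j) * x * a ^ j, y⁆ = ⁅x, y⁆ := by
  set b : ℤ → N := fun j => ⁅a ^ (-j) * x * a ^ j, y⁆ with hbdef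
  have hbc : ∀ i j, b i * b j = b j * b i := fun i j => Subgroup.mem_center_iff.mp (hb j) (b i)
  have h1 : ∀ j : ℤ, ∀ i < k + 3, ⁅a ^ (-j) * x * a ^ j, t i * y * (t i)⁻¹⁆ = b (j + ex i) := by
    intro j i hi
    have e1 : ⁅a ^ (-j) * x * a ^ j, t i * y * (t i)⁻¹⁆ =
        t i * ⁅(t i)⁻¹ * (a ^ (-j) * x * a ^ j) * t i, y⁆ * (t i)⁻¹ := by
      simp only [commutatorElement_def]; group
    have e2 : ⁅(t i)⁻¹ * (a ^ (-j) * x * a ^ j) * t i, y⁆ = b (j + ex i) := by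
      apply comm_congr_left
      rw [← QuotientGroup.eq]
      let π : N →* N ⧸ Subgroup.center N := QuotientGroup.mk' _
      have c1 : Commute (π x) (π a ^ (-ex i) * π (t i)) := by
        rw [← commutatorElement_eq_one_iff_commute]
        have := (QuotientGroup.eq_one_iff _).mpr (hx i hi)
        change π _ = 1 at this
        simpa [map_commutatorElement] using this
      have c2 : Commute (π a) (π (t i)) := by
        rw [← commutatorElement_eq_one_iff_commute]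
        have := (QuotientGroup.eq_one_iff _).mpr (ha i hi)
        change π _ = 1 at this
        simpa [map_commutatorElement] using this
      change π _ = π _
      simp only [map_mul, map_inv, map_zpow]
      exact (conj_shift c1 c2 j).symm
    rw [e1, e2, Subgroup.mem_center_iff.mp (hb (j + ex i)) (t i), mul_inv_cancel_right]
  have h2 : ∀ j : ℤ, b (j + 1) * b (j - 1) * b (j - 1) = b j * b j * b j := by
    intro j
    have e1 := comm_range_prod (x := a ^ (-j) * x * a ^ j) (fun i => t i * y * (t i)⁻¹) (k + 3)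
      (fun i hi => by rw [h1 j i hi]; exact hb _)
    rw [comm_congr_right hy, comm_pow_right (hb j)] at e1
    have e2 : (List.range (k + 3)).map (fun i => ⁅a ^ (-j) * x * a ^ j, t i * y * (t i)⁻¹⁆) =
        (List.range (k + 3)).map (fun i => b (j + ex i)) :=
      List.map_congr_left (fun i hi => h1 j i (List.mem_range.mp hi))
    rw [e2, range_prod_ex] at e1
    have e3 : b j ^ (k + 3) = b j * b j * b j * b j ^ k := by
      rw [add_comm, pow_add, pow_three, mul_assoc (b j) (b j) (b j)]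
    change b j ^ (k + 3) = _ at e1
    rw [e3] at e1
    exact (mul_right_cancel e1).symm
  have e : ∀ j : ℤ, ⁅a ^ (-j) * (x⁻¹ * a⁻¹ * x * a) * a ^ j, y⁆ = (b j)⁻¹ * b (j + 1) := by
    intro j
    have e1 : a ^ (-j) * (x⁻¹ * a⁻¹ * x * a) * a ^ j =
        (a ^ (-j) * x * a ^ j)⁻¹ * (a ^ (-(j + 1)) * x * a ^ (j + 1)) := by group
    rw [e1, comm_inv_mul_left (hb j) (hb (j + 1))]
  have h3 := doubling_trivial a y (x⁻¹ * a⁻¹ * x * a)
    (fun j => by rw [e]; exact mul_mem (inv_mem (hb j)) (hb (j + 1)))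
    (fun j => by
      rw [e, e]
      have h4 := h2 (j + 1)
      rw [add_sub_cancel_right] at h4
      have h5 : b (j + 1 + 1) = b (j + 1) * b (j + 1) * b (j + 1) * (b j)⁻¹ * (b j)⁻¹ := by
        rw [← h4]; group
      have h6 : Commute (b (j + 1)) (b j)⁻¹ := Commute.inv_right (hbc _ _)
      rw [h5]
      calc (b (j + 1))⁻¹ * (b (j + 1) * b (j + 1) * b (j + 1) * (b j)⁻¹ * (b j)⁻¹)
          = b (j + 1) * (b (j + 1) * (b j)⁻¹) * (b j)⁻¹ := by group
        _ = b (j + 1) * ((b j)⁻¹ * b (j + 1)) * (b j)⁻¹ := by rw [h6.eq]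
        _ = (b (j + 1) * (b j)⁻¹) * (b (j + 1) * (b j)⁻¹) := by group
        _ = _ := by rw [h6.eq])
  have h4 : ∀ j, b (j + 1) = b j := by
    intro j
    have := h3 j
    rw [e] at this
    exact (inv_mul_eq_one.mp this).symm
  have h0 : b 0 = ⁅x, y⁆ := by simp [hbdef]
  intro j
  change b j = _
  rw [← h0]
  induction j using Int.induction_on with
  | zero => rfl
  | succ j ih => rw [h4, ih]
  | pred j ih => rw [← h4, sub_add_cancel, ih]

end

theorem const_of_nilpotent (N : Type) [Group N] [Group.IsNilpotent N] :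
    ∀ (x y a : N) (t : ℕ → N) (k : ℕ),
    (∀ i < k + 3, ⁅x, a ^ (-ex i) * t i⁆ ∈ Subgroup.center N) →
    (∀ i < k + 3, ⁅a, t i⁆ ∈ Subgroup.center N) →
    (((List.range (k + 3)).map (fun i => t i * y * (t i)⁻¹)).prod * (y ^ (k + 3))⁻¹ ∈
      Subgroup.center N) →
    ⁅x, y⁆ ∈ Subgroup.center N →
    ∀ j : ℤ, ⁅a ^ (-j) * x * a ^ j, y⁆ = ⁅x, y⁆ := by
  refine Group.nilpotent_center_quotient_ind (P := fun N _ _ =>
    ∀ (x y a : N) (t : ℕ → N) (k : ℕ),
    (∀ i < k + 3, ⁅x, a ^ (-ex i) * t i⁆ ∈ Subgroup.center N) →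
    (∀ i < k + 3, ⁅a, t i⁆ ∈ Subgroup.center N) →
    (((List.range (k + 3)).map (fun i => t i * y * (t i)⁻¹)).prod * (y ^ (k + 3))⁻¹ ∈
      Subgroup.center N) →
    ⁅x, y⁆ ∈ Subgroup.center N →
    ∀ j : ℤ, ⁅a ^ (-j) * x * a ^ j, y⁆ = ⁅x, y⁆) N ?_ ?_
  · intro G _ _ x y a t k _ _ _ _ j
    exact Subsingleton.elim _ _
  · intro G _ _ ih x y a t k hx ha hy hd
    apply const_of_central x y a t k hx ha hy
    intro j
    let π : G →* G ⧸ Subgroup.center G := QuotientGroup.mk' _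
    have hπ : ∀ z ∈ Subgroup.center G, π z = 1 := fun z hz => (QuotientGroup.eq_one_iff _).mpr hz
    have := ih (π x) (π y) (π a) (fun i => π (t i)) k
      (fun i hi => by
        have := hπ _ (hx i hi)
        simp only [map_commutatorElement, map_mul, map_zpow] at this
        rw [this]; exact one_mem _)
      (fun i hi => by
        have := hπ _ (ha i hi)
        simp only [map_commutatorElement] at this
        rw [this]; exact one_mem _)
      (by
        have := hπ _ hy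
        simp only [map_mul, map_inv, map_pow, map_list_prod, List.map_map, Function.comp_def]
          at this
        rw [this]; exact one_mem _)
      (by
        have := hπ _ hd
        simp only [map_commutatorElement] at this
        rw [this]; exact one_mem _) j
    rw [← QuotientGroup.eq_one_iff]
    change π _ = 1
    have h2 := hπ _ hd
    simp only [map_commutatorElement, map_mul, map_zpow] at h2 ⊢
    rw [this, h2]

/-- The key inequality in nilpotent ordered groups. -/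
theorem nil_contra {N : Type} [Group N] [LinearOrder N] [MulLeftMono N] [MulRightMono N]
    [Group.IsNilpotent N] (x y a : N) (t : ℕ → N) (k : ℕ)
    (hx : ∀ i < k + 3, ⁅x, a ^ (-ex i) * t i⁆ ≤ ⁅x, y⁆ ∧ ⁅x, a ^ (-ex i) * t i⁆⁻¹ ≤ ⁅x, y⁆)
    (ha : ∀ i < k + 3, ⁅a, t i⁆ ≤ ⁅x, y⁆ ∧ ⁅a, t i⁆⁻¹ ≤ ⁅x, y⁆)
    (hy : ((List.range (k + 3)).map (fun i => t i * y * (t i)⁻¹)).prod * (y ^ (k + 3))⁻¹ ≤ ⁅x, y⁆ ∧
      (((List.range (k + 3)).map (fun i => t i * y * (t i)⁻¹)).prod * (y ^ (k + 3))⁻¹)⁻¹ ≤ ⁅x, y⁆) :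
    1 ≤ (⁅x, a * y * a⁻¹⁆ ^ 2)⁻¹ * ⁅x, y⁆ ^ 3 := by
  have hd : 1 ≤ ⁅x, y⁆ := by
    rcases le_total 1 ⁅a, t 0⁆ with h | h
    · exact h.trans (ha 0 (by omega)).1
    · exact (one_le_inv'.mpr h).trans (ha 0 (by omega)).2
  have := smallSub_normal hd
  let π : N →* N ⧸ smallSub hd := QuotientGroup.mk' _
  have hs : Function.Surjective π := QuotientGroup.mk'_surjective _
  have hπ : ∀ z ∈ smallSub hd, π z = 1 := fun z hz => (QuotientGroup.eq_one_iff _).mpr hz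
  have hc : ⁅π x, π y⁆ ∈ Subgroup.center (N ⧸ smallSub hd) := by
    have := central_mod_small hd le_rfl ((inv_le_one'.mpr hd).trans hd) π hs hπ
    simpa only [map_commutatorElement] using this
  have h1 := const_of_nilpotent (N ⧸ smallSub hd) (π x) (π y) (π a) (fun i => π (t i)) k
    (fun i hi => by
      have := central_mod_small hd (hx i hi).1 (hx i hi).2 π hs hπ
      simpa only [map_commutatorElement, map_mul, map_zpow] using this)
    (fun i hi => by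
      have := central_mod_small hd (ha i hi).1 (ha i hi).2 π hs hπ
      simpa only [map_commutatorElement] using this)
    (by
      have := central_mod_small hd hy.1 hy.2 π hs hπ
      simpa only [map_mul, map_inv, map_pow, map_list_prod, List.map_map, Function.comp_def]
        using this) hc 1
  have h2 : ⁅π x, π a * π y * (π a)⁻¹⁆ = ⁅π x, π y⁆ := by
    have e1 : ⁅π x, π a * π y * (π a)⁻¹⁆ =
        π a * ⁅π a ^ (-1 : ℤ) * π x * π a ^ (1 : ℤ), π y⁆ * (π a)⁻¹ := by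
      simp only [commutatorElement_def]; group
    rw [e1, h1, Subgroup.mem_center_iff.mp hc (π a), mul_inv_cancel_right]
  have h3 : ⁅x, y⁆⁻¹ * ((⁅x, a * y * a⁻¹⁆ ^ 2)⁻¹ * ⁅x, y⁆ ^ 3) ∈ smallSub hd := by
    rw [← QuotientGroup.eq_one_iff]
    change π _ = 1
    simp only [map_commutatorElement, map_mul, map_inv, map_pow, h2]
    group
  have h4 := h3.2 1
  rw [pow_one, mul_inv_rev, inv_inv] at h4
  have h5 := mul_le_iff_le_one_left'.mp h4
  exact inv_le_one'.mp h5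

end Pool.Agent.P.MP_84759c_al
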