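import Mathlib
import Pool.Agent.P.MP_84759c_al.Cone
import Pool.Agent.P.MP_84759c_al.ACone

set_option autoImplicit false

namespace Pool.Agent.P.MP_84759c_al

/-- Data for a group of formal upper triangular three by three matrices. -/
structure TriData (Q A B D : Type) [AddCommGroup Q] [CommRing A] [CommRing B] [CommRing D] where
  ca : Q → A
  cb : Q → B
  ca_zero : ca 0 = 1
  cb_zero : cb 0 = 1
  ca_add : ∀ p q, ca (p + q) = ca p * ca q
  cb_add : ∀ p q, cb (p + q) = cb p * cb q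
  ta : A →+* D
  tb : B →+* D
  compat : ∀ q, ta (ca q) = tb (cb q)

variable {Q A B D : Type} [AddCommGroup Q] [CommRing A] [CommRing B] [CommRing D]

/-- Formal matrices with rows `(1, f, z)`, `(0, q, g)`, `(0, 0, 1)`. -/
@[ext] structure Tri (T : TriData Q A B D) where
  f : A
  g : B
  z : D
  q : Q

namespace Tri
variable {T : TriData Q A B D}

theorem ca_neg_mul (q : Q) : T.ca (-q) * T.ca q = 1 := by rw [← T.ca_add]; simp [T.ca_zero]
theorem cb_neg_mul (q : Q) : T.cb (-q) * T.cb q = 1 := by rw [← T.cb_add]; simp [T.cb_zero]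
theorem ca_mul_neg (q : Q) : T.ca q * T.ca (-q) = 1 := by rw [← T.ca_add]; simp [T.ca_zero]
theorem cb_mul_neg (q : Q) : T.cb q * T.cb (-q) = 1 := by rw [← T.cb_add]; simp [T.cb_zero]

instance : Mul (Tri T) :=
  ⟨fun a b => ⟨a.f * T.ca b.q + b.f, a.g + T.cb a.q * b.g, a.z + b.z + T.ta a.f * T.tb b.g,
    a.q + b.q⟩⟩
instance : One (Tri T) := ⟨⟨0, 0, 0, 0⟩⟩
instance : Inv (Tri T) :=
  ⟨fun a => ⟨-(a.f * T.ca (-a.q)), -(T.cb (-a.q) * a.g),
    -a.z + T.ta a.f * T.tb (T.cb (-a.q) * a.g), -a.q⟩⟩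

@[simp] theorem mul_f (a b : Tri T) : (a * b).f = a.f * T.ca b.q + b.f := rfl
@[simp] theorem mul_g (a b : Tri T) : (a * b).g = a.g + T.cb a.q * b.g := rfl
@[simp] theorem mul_z (a b : Tri T) : (a * b).z = a.z + b.z + T.ta a.f * T.tb b.g := rfl
@[simp] theorem mul_q (a b : Tri T) : (a * b).q = a.q + b.q := rfl
@[simp] theorem one_f : (1 : Tri T).f = 0 := rfl
@[simp] theorem one_g : (1 : Tri T).g = 0 := rfl
@[simp] theorem one_z : (1 : Tri T).z = 0 := rfl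
@[simp] theorem one_q : (1 : Tri T).q = 0 := rfl
@[simp] theorem inv_f (a : Tri T) : a⁻¹.f = -(a.f * T.ca (-a.q)) := rfl
@[simp] theorem inv_g (a : Tri T) : a⁻¹.g = -(T.cb (-a.q) * a.g) := rfl
@[simp] theorem inv_z (a : Tri T) :
    a⁻¹.z = -a.z + T.ta a.f * T.tb (T.cb (-a.q) * a.g) := rfl
@[simp] theorem inv_q (a : Tri T) : a⁻¹.q = -a.q := rfl

instance : Group (Tri T) := Group.ofLeftAxioms
  (fun a b c => by
    ext
    · simp only [mul_f, mul_q, T.ca_add]; ring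
    · simp only [mul_g, mul_q, T.cb_add]; ring
    · simp only [mul_z, mul_f, mul_g, map_add, map_mul, T.compat]; ring
    · simp only [mul_q, add_assoc])
  (fun a => by ext <;> simp [T.cb_zero])
  (fun a => by
    ext
    · simp [mul_assoc, ca_neg_mul]
    · simp
    · simp only [mul_z, inv_z, inv_f, map_neg, map_mul, T.compat, one_z]; ring
    · simp)

/-- The pair of off-diagonal entries. -/
def pr (a : Tri T) : A × B := (a.f, a.g)

theorem pr_mul {a b : Tri T} (ha : a.q = 0) (hb : b.q = 0) : (a * b).pr = a.pr + b.pr := by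
  simp [pr, ha, hb, T.ca_zero, T.cb_zero]

theorem pr_inv {a : Tri T} (ha : a.q = 0) : a⁻¹.pr = -a.pr := by
  simp [pr, ha, T.ca_zero, T.cb_zero]

theorem conj_f {a : Tri T} (ha : a.q = 0) (h : Tri T) : (h * a * h⁻¹).f = a.f * T.ca (-h.q) := by
  simp only [mul_f, inv_f, inv_q, ha, T.ca_zero]; ring

theorem conj_g {a : Tri T} (ha : a.q = 0) (h : Tri T) : (h * a * h⁻¹).g = T.cb h.q * a.g := by
  simp only [mul_g, inv_g, mul_q, ha, add_zero, mul_neg, ← mul_assoc, cb_mul_neg]; ring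

theorem conj_z {a : Tri T} (ha : a.q = 0) (h : Tri T) :
    (h * a * h⁻¹).z = a.z + T.ta h.f * T.tb a.g + T.ta a.f * T.tb h⁻¹.g := by
  simp only [mul_z, mul_f, inv_z, inv_g, ha, T.ca_zero, map_neg, map_add, map_mul, mul_one]; ring

theorem conj_q (a h : Tri T) : (h * a * h⁻¹).q = a.q := by simp

end Tri

/-- The lexicographic cone on a triangular group. -/
def triCone {T : TriData Q A B D} (CQ : Q → Prop) (CM : A × B → Prop) (ψ : D →+ ℚ)
    (a : Tri T) : Prop :=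
  CQ a.q ∧ (a.q = 0 → CM a.pr ∧ (CM (-a.pr) → 0 ≤ ψ a.z))

theorem tri_tcone {T : TriData Q A B D} {Γ : Type*} [Group Γ] (ι : Γ →* Tri T)
    {CQ : Q → Prop} (hQ : IsACone CQ) (hQa : ∀ q, CQ q → CQ (-q) → q = 0)
    {CM : A × B → Prop} (hM : IsACone CM)
    (hinv : ∀ γ h : Γ, (ι γ).q = 0 → CM (ι γ).pr → CM (ι h * ι γ * (ι h)⁻¹).pr)
    (ψ : D →+ ℚ)
    (hψ : ∀ γ h : Γ, CM (ι γ).pr → CM (-(ι γ).pr) →
      ψ (T.ta (ι γ).f * T.tb (ι h).g) = 0 ∧ ψ (T.ta (ι h).f * T.tb (ι γ).g) = 0) :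
    IsTCone (fun γ => triCone CQ CM ψ (ι γ)) := by
  refine ⟨?_, ?_, ?_, ?_⟩
  · simp only [map_one, triCone]
    exact ⟨hQ.zero, fun _ => ⟨hM.zero, fun _ => by simp⟩⟩
  · rintro a b ⟨ha1, ha2⟩ ⟨hb1, hb2⟩
    rw [map_mul]
    refine ⟨hQ.add _ _ ha1 hb1, fun h => ?_⟩
    rw [Tri.mul_q] at h
    have hqa : (ι a).q = 0 := hQa _ ha1 (by rw [neg_eq_of_add_eq_zero_right h]; exact hb1)
    have hqb : (ι b).q = 0 := by simpa [hqa] using h
    obtain ⟨ha3, ha4⟩ := ha2 hqa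
    obtain ⟨hb3, hb4⟩ := hb2 hqb
    rw [Tri.pr_mul hqa hqb]
    refine ⟨hM.add _ _ ha3 hb3, fun h1 => ?_⟩
    have ha5 : CM (-(ι a).pr) := by simpa using hM.add _ _ h1 hb3
    have hb5 : CM (-(ι b).pr) := by simpa using hM.add _ _ h1 ha3
    rw [Tri.mul_z, map_add, map_add, (hψ a b ha3 ha5).1, add_zero]
    exact add_nonneg (ha4 ha5) (hb4 hb5)
  · rintro a h ⟨ha1, ha2⟩
    rw [map_mul, map_mul, map_inv]
    refine ⟨by rw [Tri.conj_q]; exact ha1, fun hq => ?_⟩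
    have hq' := hq
    rw [Tri.conj_q] at hq
    obtain ⟨ha3, ha4⟩ := ha2 hq
    refine ⟨hinv _ _ hq ha3, fun h1 => ?_⟩
    have ha5 : CM (-(ι a).pr) := by
      have h2 := hinv (h * a * h⁻¹)⁻¹ h⁻¹ (by simp [hq])
        (by rw [map_inv, map_mul, map_mul, map_inv, Tri.pr_inv hq']; exact h1)
      have e : ι h⁻¹ * ι (h * a * h⁻¹)⁻¹ * (ι h⁻¹)⁻¹ = (ι a)⁻¹ := by
        simp only [map_mul, map_inv]; group
      rwa [e, Tri.pr_inv hq] at h2
    have h3 := (hψ a h⁻¹ ha3 ha5).1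
    rw [map_inv] at h3
    rw [Tri.conj_z hq, map_add, map_add, (hψ a h ha3 ha5).2, h3, add_zero, add_zero]
    exact ha4 ha5
  · intro a
    simp only [map_inv, triCone]
    by_cases hq : (ι a).q = 0
    · have hq' : (ι a)⁻¹.q = 0 := by simp [hq]
      rw [Tri.pr_inv hq, neg_neg, hq, hq']
      by_cases h1 : CM (ι a).pr
      · by_cases h2 : CM (-(ι a).pr)
        · have h3 : ψ (ι a)⁻¹.z = -ψ (ι a).z := by
            rw [Tri.inv_z, hq, neg_zero, T.cb_zero, one_mul, map_add, (hψ a a h1 h2).1, map_neg,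
              add_zero]
          rcases le_total 0 (ψ (ι a).z) with h4 | h4
          · exact Or.inl ⟨hQ.zero, fun _ => ⟨h1, fun _ => h4⟩⟩
          · exact Or.inr ⟨hQ.zero, fun _ => ⟨h2, fun _ => by rw [h3]; linarith⟩⟩
        · exact Or.inl ⟨hQ.zero, fun _ => ⟨h1, fun h => absurd h h2⟩⟩
      · exact Or.inr ⟨hQ.zero, fun _ => ⟨(hM.total _).resolve_left h1, fun h => absurd h h1⟩⟩
    · rcases hQ.total (ι a).q with h1 | h1
      · exact Or.inl ⟨h1, fun h => absurd h hq⟩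
      · exact Or.inr ⟨h1, fun h => absurd (by simpa using h) hq⟩

/-- The quotient by the kernel of the cone is nilpotent when there is a finite filtration. -/
theorem tri_nilpotent {T : TriData Q A B D} {Γ : Type*} [Group Γ] (ι : Γ →* Tri T)
    {CQ : Q → Prop} (hQ : IsACone CQ) {CM : A × B → Prop} (ψ : D →+ ℚ)
    (hψ : ∀ γ h : Γ, CM (ι γ).pr → CM (-(ι γ).pr) →
      ψ (T.ta (ι γ).f * T.tb (ι h).g) = 0 ∧ ψ (T.ta (ι h).f * T.tb (ι γ).g) = 0)
    (F : ℕ → A × B → Prop) (m : ℕ) (h0 : ∀ γ, F 0 (ι γ).pr)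
    (hF : ∀ j, ∀ γ h : Γ, (ι γ).q = 0 → F j (ι γ).pr →
      F (j + 1) ((ι γ).pr - (ι h * ι γ * (ι h)⁻¹).pr))
    (hm : ∀ j ≥ m, ∀ x, F j x → CM x ∧ CM (-x))
    {H : Type*} [Group H] [LinearOrder H] [MulLeftMono H] (π : Γ →* H)
    (hs : Function.Surjective π) (hπ : ∀ γ, 1 ≤ π γ ↔ triCone CQ CM ψ (ι γ)) :
    Group.IsNilpotent H := by
  have hpr : ∀ a b : Γ, (ι a).q = 0 →
      (ι (a * b * a⁻¹ * b⁻¹)).pr = (ι a).pr - (ι b * ι a * (ι b)⁻¹).pr := by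
    intro a b ha
    have e : ι (a * b * a⁻¹ * b⁻¹) = ι a * (ι b * ι a * (ι b)⁻¹)⁻¹ := by
      simp only [map_mul, map_inv]; group
    rw [e, Tri.pr_mul ha (by simp [ha]), Tri.pr_inv (by simp [ha]), sub_eq_add_neg]
  refine nilpotent_of_chain π hs
    (fun j γ => (1 ≤ j → (ι γ).q = 0 ∧ F (j - 1) (ι γ).pr) ∧ (m + 2 ≤ j → ψ (ι γ).z = 0))
    (m + 2) (fun a => ⟨fun h => by omega, fun h => by omega⟩) ?_ ?_
  · rintro j a b ⟨h1, h2⟩
    refine ⟨fun _ => ⟨by simp, ?_⟩, fun hj => ?_⟩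
    · rcases Nat.eq_zero_or_pos j with rfl | hj
      · exact h0 _
      · obtain ⟨h3, h4⟩ := h1 hj
        have e : j + 1 - 1 = j - 1 + 1 := by omega
        rw [hpr a b h3, e]
        exact hF _ _ _ h3 h4
    · obtain ⟨h3, h4⟩ := h1 (by omega)
      obtain ⟨h5, h6⟩ := hm _ (by omega) _ h4
      have e : ι (a * b * a⁻¹ * b⁻¹) = ι a * (ι b * (ι a)⁻¹ * (ι b)⁻¹) := by
        simp only [map_mul, map_inv]; group
      have e1 := (hψ a (b * a⁻¹ * b⁻¹) h5 h6).1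
      have e2 := (hψ a b h5 h6).2
      have e3 := (hψ a b⁻¹ h5 h6).1
      have e4 := (hψ a a h5 h6).1
      rw [map_mul ι, map_mul ι, map_inv ι, map_inv ι] at e1
      rw [map_inv ι] at e3
      have hq : (ι a)⁻¹.q = 0 := by simp [h3]
      rw [e, Tri.mul_z, Tri.conj_z hq, map_add, e1, Tri.inv_z (ι a), Tri.inv_f (ι a),
        Tri.inv_g (ι a), h3]
      simp only [neg_zero, T.ca_zero, T.cb_zero, mul_one, one_mul, map_neg, mul_neg, neg_mul,
        map_add, e2, e3, e4]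
      ring
  · rintro a ⟨h1, h2⟩
    obtain ⟨h3, h4⟩ := h1 (by omega)
    obtain ⟨h5, h6⟩ := hm _ (by omega) _ h4
    have h7 := h2 le_rfl
    have hq : (ι a)⁻¹.q = 0 := by simp [h3]
    have p1 : 1 ≤ π a := (hπ a).mpr ⟨by rw [h3]; exact hQ.zero, fun _ => ⟨h5, fun _ => h7.ge⟩⟩
    have p2 : 1 ≤ π a⁻¹ := by
      rw [hπ, map_inv]
      refine ⟨by rw [hq]; exact hQ.zero, fun _ => ⟨by rw [Tri.pr_inv h3]; exact h6, fun _ => ?_⟩⟩
      rw [Tri.inv_z, h3, neg_zero, T.cb_zero, one_mul, map_add, (hψ a a h5 h6).1, map_neg, h7]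
      simp
    rw [map_inv, one_le_inv'] at p2
    exact le_antisymm p2 p1

end Pool.Agent.P.MP_84759c_al
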