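import Mathlib
import Pool.Agent.P.MP_84759c_al.Tri
import Pool.Agent.P.MP_84759c_al.Alg
import Pool.Agent.P.MP_84759c_al.OGroup

set_option autoImplicit false

open LaurentPolynomial

namespace Pool.Agent.P.MP_84759c_al

theorem sum_two_ex (k : ℕ) : ∑ i : Fin (k + 3), (2 : ℚ) ^ ex i = ((k + 3 : ℕ) : ℚ) := by
  rw [Fin.sum_univ_eq_sum_range (fun i => (2 : ℚ) ^ ex i)]
  induction k with
  | zero => simp [Finset.sum_range_succ, ex]; norm_num
  | succ k ih =>
    have e : k + 1 + 3 = (k + 3) + 1 := by ring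
    rw [e, Finset.sum_range_succ, ih]
    have : ex (k + 3) = 0 := by simp [ex]
    simp [this]

theorem neg_one_le_ex (i : ℕ) : -1 ≤ ex i := by
  unfold ex; split_ifs <;> omega

/-- The action of `ℤ ^ n` on the Laurent polynomial ring. -/
noncomputable def cA (k : ℕ) : (Fin (k + 3) → ℤ) → Lam := chi (fun i : Fin (k + 3) => uT ℚ ^ ex i)

theorem cA_eq (k : ℕ) (q : Fin (k + 3) → ℤ) : cA k q = T (∑ i : Fin (k + 3), ex i * q i) := by
  rw [cA, chi_zpow, uT_zpow]

/-- The augmentation ideal of the Laurent polynomial ring. -/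
noncomputable def Ia : Ideal Lam := RingHom.ker (evL (1 : ℚˣ))

theorem one_sub_cA_mem (k : ℕ) (q : Fin (k + 3) → ℤ) : 1 - cA k q ∈ Ia := by
  rw [Ia, RingHom.mem_ker, cA_eq]
  simp [evL]

theorem Ia_ne_top : Ia ≠ ⊤ := RingHom.ker_ne_top _

section
variable {k : ℕ} {B : Type} [CommRing B] [Algebra ℚ B]

/-- The filtration of the pair of modules. -/
noncomputable def Wf (ev1 : B →+* ℚ) (j : ℕ) : Submodule ℚ (Lam × B) :=
  ((Ia ^ j).restrictScalars ℚ).prod (((RingHom.ker ev1) ^ j).restrictScalars ℚ)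

theorem mem_Wf {ev1 : B →+* ℚ} {j : ℕ} {x : Lam × B} :
    x ∈ Wf ev1 j ↔ x.1 ∈ Ia ^ j ∧ x.2 ∈ (RingHom.ker ev1) ^ j := Iff.rfl

theorem Wf_top (ev1 : B →+* ℚ) (x : Lam × B) : x ∈ Wf ev1 0 := by simp [mem_Wf]

theorem Wf_anti (ev1 : B →+* ℚ) (j : ℕ) (x : Lam × B) (h : x ∈ Wf ev1 (j + 1)) : x ∈ Wf ev1 j :=
  ⟨Ideal.pow_le_pow_right (by omega) h.1, Ideal.pow_le_pow_right (by omega) h.2⟩

theorem Wf_step {ev1 : B →+* ℚ} {t : Fin (k + 3) → Bˣ} (h1 : ∀ i, ev1 (t i) = 1) (j : ℕ)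
    (x : Lam × B) (hx : x ∈ Wf ev1 j) (p q : Fin (k + 3) → ℤ) :
    x - (x.1 * cA k p, chi t q * x.2) ∈ Wf ev1 (j + 1) := by
  rw [mem_Wf]
  constructor
  · have e : (x - (x.1 * cA k p, chi t q * x.2)).1 = x.1 * (1 - cA k p) := by
      simp only [Prod.fst_sub]; ring
    rw [e, pow_succ]
    exact Ideal.mul_mem_mul hx.1 (one_sub_cA_mem k p)
  · have e : (x - (x.1 * cA k p, chi t q * x.2)).2 = x.2 * (1 - chi t q) := by
      simp only [Prod.snd_sub]; ring
    rw [e, pow_succ]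
    refine Ideal.mul_mem_mul hx.2 ?_
    rw [RingHom.mem_ker, map_sub, map_one, map_chi ev1 t (fun _ => 1) h1, chi_one, sub_self]

theorem Wf_inter [IsDomain B] [IsNoetherianRing B] {ev1 : B →+* ℚ} (x : Lam × B)
    (hx : ∀ j, x ∈ Wf ev1 (j + 1)) : x = 0 := by
  have := laurent_isDomain ℚ
  have := laurent_noeth ℚ
  have h1 := Ideal.iInf_pow_eq_bot_of_isDomain Ia Ia_ne_top
  have h2 := Ideal.iInf_pow_eq_bot_of_isDomain (RingHom.ker ev1) (RingHom.ker_ne_top _)
  have h3 : x.1 ∈ (⨅ j : ℕ, Ia ^ j) := Ideal.mem_iInf.mpr fun j => (Wf_anti _ _ _ (hx j)).1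
  have h4 : x.2 ∈ (⨅ j : ℕ, (RingHom.ker ev1) ^ j) :=
    Ideal.mem_iInf.mpr fun j => (Wf_anti _ _ _ (hx j)).2
  rw [h1] at h3
  rw [h2] at h4
  exact Prod.ext h3 h4

/-- The triangular group data of the counterexample. -/
noncomputable def T0 (t : Fin (k + 3) → Bˣ) (evp : B →+* ℚ)
    (hp : ∀ i, evp (t i) = ((two ^ ex i : ℚˣ) : ℚ)) : TriData (Fin (k + 3) → ℤ) Lam B ℚ where
  ca := cA k
  cb := chi t
  ca_zero := chi_zero _
  cb_zero := chi_zero _
  ca_add := chi_add _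
  cb_add := chi_add _
  ta := evL two
  tb := evp
  compat := fun q => by
    rw [map_chi evp t _ hp, cA, map_chi (evL two) _ (fun i => two ^ ex i)]
    intro i
    rw [uT_zpow, evL, eval₂_T]

/-- The sublattice orthogonal to `lam`. -/
def Qsub (lam : Fin (k + 3) → ℤ) : AddSubgroup (Fin (k + 3) → ℤ) where
  carrier := {q | ∑ i, lam i * q i = 0}
  zero_mem' := by simp
  add_mem' := by
    intro a b ha hb
    simp only [Set.mem_ofPred_eq, Pi.add_apply, mul_add, Finset.sum_add_distrib] at *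
    rw [ha, hb, add_zero]
  neg_mem' := by
    intro a ha
    simp only [Set.mem_ofPred_eq, Pi.neg_apply, mul_neg, Finset.sum_neg_distrib] at *
    rw [ha, neg_zero]

/-- The triangular group data of the covering group used for the approximation. -/
noncomputable def T1 (t : Fin (k + 3) → Bˣ) (lam : Fin (k + 3) → ℤ) {D : Type} [CommRing D]
    (θ : Lam →+* D) (θb : B →+* D) (μ ν : Dˣ) (hμ : θ (T 1) = μ)
    (hb : ∀ i, θb (t i) = ((μ ^ ex i * ν ^ lam i : Dˣ) : D)) : TriData (Qsub lam) Lam B D where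
  ca := fun q => cA k q
  cb := fun q => chi t q
  ca_zero := chi_zero _
  cb_zero := chi_zero _
  ca_add := fun p q => chi_add _ _ _
  cb_add := fun p q => chi_add _ _ _
  ta := θ
  tb := θb
  compat := fun q => by
    have hq : ∑ i, lam i * (q : Fin (k + 3) → ℤ) i = 0 := q.2
    rw [map_chi θb t _ hb, chi_mul, chi_zpow ν, hq, cA, map_chi θ _ (fun i => μ ^ ex i)]
    · simp
    · intro i
      have : Units.map (θ : Lam →* D) (uT ℚ) = μ := Units.ext hμ
      rw [← this, ← map_zpow]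
      rfl

theorem exists_lam (X : Finset ℕ) (hX : X.card ≤ k) (q : ℕ → Fin (k + 3) → ℤ)
    (hq : ∀ i ∉ X, q i = 0) : ∃ lam : Fin (k + 3) → ℤ, lam ≠ 0 ∧ ∀ i, q i ∈ Qsub lam := by
  let f : (Fin (k + 3) → ℤ) →ₗ[ℤ] (X → ℤ) :=
    { toFun := fun lam x => ∑ i, lam i * q x i
      map_add' := fun a b => by ext x; simp [add_mul, Finset.sum_add_distrib]
      map_smul' := fun c a => by ext x; simp [Finset.mul_sum, mul_assoc] }
  have hf : ¬ Function.Injective f := by
    intro h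
    have := LinearMap.finrank_le_finrank_of_injective h
    simp at this
    omega
  rw [injective_iff_map_eq_zero] at hf
  push Not at hf
  obtain ⟨lam, h1, h2⟩ := hf
  refine ⟨lam, h2, fun i => ?_⟩
  by_cases hi : i ∈ X
  · exact congrFun h1 ⟨i, hi⟩
  · rw [hq i hi]; exact zero_mem _

theorem approx [IsDomain B] [IsNoetherianRing B] {t : Fin (k + 3) → Bˣ}
    (hB : ∀ (D : Type) [CommRing D] [Algebra ℚ D] (τ : Fin (k + 3) → Dˣ),
        (∑ i, (τ i : D) = ((k + 3 : ℕ) : D)) → ∃ θ : B →+* D, ∀ i, θ (t i) = τ i)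
    (hgen : ∀ f g : B →+* ℚ, (∀ i, f (t i) = g (t i)) → f = g)
    {ev1 evp : B →+* ℚ} (h1 : ∀ i, ev1 (t i) = 1)
    (hp : ∀ i, evp (t i) = ((two ^ ex i : ℚˣ) : ℚ))
    {P : ℕ → Lam × B → Prop} (hP : Chain (Wf ev1) P)
    {CQ : (Fin (k + 3) → ℤ) → Prop} (hQ : IsACone CQ) (hQa : ∀ q, CQ q → CQ (-q) → q = 0)
    (X : Finset ℕ) (hX : X.card ≤ k) (v : ℕ → Tri (T0 t evp hp)) (hv : ∀ i ∉ X, v i = 1)
    (s : Finset (FreeGroup ℕ))
    (hs : ∀ w ∈ s, ¬ triCone CQ (chainCone (Wf ev1) P (fun _ => True)) (AddMonoidHom.id ℚ)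
      (FreeGroup.lift v w)) :
    ∃ (N : Type) (_ : Group N) (_ : LinearOrder N), MulLeftMono N ∧ MulRightMono N ∧
      Group.IsNilpotent N ∧ ∃ v' : ℕ → N, ∀ w ∈ s, ¬ 1 ≤ FreeGroup.lift v' w := by
  classical
  have := laurent_isDomain ℚ
  have := laurent_noeth ℚ
  obtain ⟨lam, hlam, hq⟩ := exists_lam X hX (fun i => (v i).q) (fun i hi => by rw [hv i hi]; rfl)
  obtain ⟨D, _, _, θ, μ, ν, φ, hμ, hsum, hφθ, hφν, hφ⟩ := exists_curve (k + 3)
    (fun i => ex i) lam hlam (fun i => neg_one_le_ex i) (sum_two_ex k)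
  obtain ⟨θb, hb⟩ := hB D (fun i => μ ^ ex i * ν ^ lam i) hsum
  have hφb : ∀ g, φ (θb g) = evp g := by
    have : φ.comp θb = evp := by
      apply hgen
      intro i
      have e1 : Units.map (φ : D →* ℚ) μ = two := by
        apply Units.ext
        change φ μ = _
        rw [← hμ, hφθ, evL, eval₂_T]; simp
      have e2 : Units.map (φ : D →* ℚ) ν = 1 := Units.ext hφν
      rw [hp, RingHom.comp_apply, hb]
      change ((Units.map (φ : D →* ℚ) (μ ^ ex i * ν ^ lam i) : ℚˣ) : ℚ) = _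
      rw [map_mul, map_zpow, map_zpow, e1, e2, one_zpow, mul_one]
    exact fun g => RingHom.congr_fun this g
  let T' := T1 t lam θ θb μ ν hμ hb
  let ρ : Tri T' →* Tri (T0 t evp hp) := MonoidHom.mk'
    (fun a => ⟨a.f, a.g, φ a.z, a.q⟩) (fun a b => by
      ext
      · rfl
      · rfl
      · simp only [Tri.mul_z, map_add, map_mul]
        change _ + φ (θ a.f) * φ (θb b.g) = _ + evL two a.f * evp b.g
        rw [hφθ, hφb]
      · rfl)
  let v₁ : ℕ → Tri T' := fun i => ⟨(v i).f, (v i).g, algebraMap ℚ D (v i).z, ⟨(v i).q, hq i⟩⟩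
  let ι : FreeGroup ℕ →* Tri T' := FreeGroup.lift v₁
  have hρι : ∀ w, ρ (ι w) = FreeGroup.lift v w := by
    have : ρ.comp ι = FreeGroup.lift v := by
      ext1 i
      simp only [ι, MonoidHom.comp_apply, FreeGroup.lift_apply_of]
      ext
      · rfl
      · rfl
      · change φ (algebraMap ℚ D (v i).z) = (v i).z
        simp
      · rfl
    exact fun w => DFunLike.congr_fun this w
  let _ : Algebra Lam D := θ.toAlgebra
  have hsm : ∀ (r : Lam) (x : D), r • x = θ r * x := fun r x => rfl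
  let E : Submodule Lam D := Submodule.span Lam ((X.image (fun i => θb (v i).g) : Finset D) : Set D)
  have hE : ∀ w, θb (ι w).g ∈ E := by
    intro w
    induction w using FreeGroup.induction_on with
    | C1 => simp
    | of i =>
      simp only [ι, FreeGroup.lift_apply_of, v₁]
      by_cases hi : i ∈ X
      · exact Submodule.subset_span (Finset.mem_coe.mpr (Finset.mem_image_of_mem _ hi))
      · rw [hv i hi]; simp
    | inv_of i ih =>
      rw [map_inv, Tri.inv_g, map_neg, map_mul]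
      refine neg_mem ?_
      have := T'.compat (-(ι (FreeGroup.of i)).q)
      change θ _ = θb _ at this
      rw [← this, ← hsm]
      exact E.smul_mem _ ih
    | mul a b ha hb' =>
      rw [map_mul, Tri.mul_g, map_add, map_mul]
      refine add_mem ha ?_
      have := T'.compat (ι a).q
      change θ _ = θb _ at this
      rw [← this, ← hsm]
      exact E.smul_mem _ hb'
  let W₁ : ℕ → Submodule ℚ D := fun j => (Ia ^ j • E).restrictScalars ℚ
  have hW₁ : Antitone W₁ := fun i j hij x hx =>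
    Submodule.smul_mono_left (Ideal.pow_le_pow_right hij) hx
  have hK : ∀ x, (∀ j, x ∈ W₁ j) → φ x = 0 := by
    intro x hx
    have hfin : Module.Finite Lam E := Module.Finite.span_of_finite _ (Finset.finite_toSet _)
    have hx0 : x ∈ E := by simpa [W₁] using hx 0
    have h2 : (⟨x, hx0⟩ : E) ∈ (⨅ j : ℕ, Ia ^ j • ⊤ : Submodule Lam E) := by
      rw [Submodule.mem_iInf]
      intro j
      rw [Submodule.mem_smul_top_iff]
      exact hx j
    obtain ⟨r, hr⟩ := (Ideal.mem_iInf_smul_pow_eq_bot_iff Ia _).mp h2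
    have h3 : θ r * x = x := congrArg Subtype.val hr
    refine hφ (1 - r) ?_ x (by rw [map_sub, map_one, sub_mul, one_mul, h3, sub_self])
    intro h4
    apply Ia_ne_top
    rw [Ideal.eq_top_iff_one, sub_eq_zero.mp h4]
    exact r.2
  obtain ⟨m₀, hm₀⟩ := exists_approx_functional (φ.toAddMonoidHom.toRatLinearMap) W₁ hW₁ hK
    (s.image (fun w => (ι w).z))
  have hlev : ∀ w : FreeGroup ℕ, ∃ j₀ : ℕ, ∀ m ≥ j₀,
      chainCone (Wf ev1) P (fun j => j < m) (ι w).pr →
        chainCone (Wf ev1) P (fun _ => True) (ι w).pr := by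
    intro w
    by_cases hx : chainCone (Wf ev1) P (fun _ => True) (ι w).pr
    · exact ⟨0, fun _ _ _ => hx⟩
    · have hx' := hx
      simp only [chainCone] at hx'
      push Not at hx'
      obtain ⟨j, -, h2, h3⟩ := hx'
      exact ⟨j + 1, fun m hm h => absurd (h j (by omega) h2) h3⟩
  choose j₀ hj₀ using hlev
  obtain ⟨m, hm1, hm2⟩ : ∃ m, m₀ ≤ m ∧ ∀ w ∈ s, j₀ w ≤ m :=
    ⟨max m₀ (s.sup j₀), le_max_left _ _, fun w hw =>
      le_trans (Finset.le_sup (f := j₀) hw) (le_max_right _ _)⟩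
  obtain ⟨ψ, hψ1, hψ2⟩ := hm₀ m hm1
  let W₂ : ℕ → Submodule ℚ D := fun j => Nat.casesOn j ⊤ W₁
  obtain ⟨P₂, hP₂⟩ := exists_chain W₂ (fun _ => trivial) (fun j x hx => by
    cases j with
    | zero => trivial
    | succ j => exact hW₁ (Nat.le_succ j) hx)
  let σ : Lam × B →+ D := θb.toAddMonoidHom.comp (AddMonoidHom.snd Lam B)
  let C₁ := chainCone (Wf ev1) P (fun j => j < m)
  let C₂ := chainCone W₂ P₂ (fun j => j < m + 1)
  have hC₁ : IsACone C₁ := hP.isACone (fun j hj => by omega)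
  have hC₂ : IsACone C₂ := hP₂.isACone (fun j hj => by omega)
  let CM : Lam × B → Prop := fun x => C₁ x ∧ (C₁ (-x) → C₂ (σ x))
  have hCM : IsACone CM := hC₁.lex (hC₂.comap σ)
  have hQ' : IsACone (fun q : Qsub lam => CQ q) := hQ.comap (Qsub lam).subtype
  have hstepW : ∀ j (γ h : FreeGroup ℕ), (ι γ).q = 0 → (ι γ).pr ∈ Wf ev1 j →
      (ι γ).pr - (ι h * ι γ * (ι h)⁻¹).pr ∈ Wf ev1 (j + 1) := by
    intro j γ h hq0 hγ
    have := Wf_step h1 j _ hγ (-(ι h).q : Qsub lam) (ι h).q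
    simp only [Tri.pr, Tri.conj_f hq0, Tri.conj_g hq0]
    exact this
  have hstepE : ∀ j (γ h : FreeGroup ℕ), (ι γ).q = 0 → σ (ι γ).pr ∈ W₁ j →
      σ ((ι γ).pr - (ι h * ι γ * (ι h)⁻¹).pr) ∈ W₁ (j + 1) := by
    intro j γ h hq0 hγ
    have e : σ ((ι γ).pr - (ι h * ι γ * (ι h)⁻¹).pr) =
        (1 - cA k (ι h).q) • σ (ι γ).pr := by
      have := T'.compat (ι h).q
      change θ (cA k (ι h).q) = θb _ at this
      change θb ((ι γ).g - (ι h * ι γ * (ι h)⁻¹).g) = θ _ * θb (ι γ).g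
      rw [Tri.conj_g hq0, map_sub, map_mul, map_sub, map_one, this]
      ring
    rw [e]
    change _ ∈ Ia ^ (j + 1) • E
    rw [pow_succ', Submodule.mul_smul]
    exact Submodule.smul_mem_smul (one_sub_cA_mem k _) hγ
  have hker : ∀ γ : FreeGroup ℕ, CM (ι γ).pr → CM (-(ι γ).pr) →
      (ι γ).f ∈ Ia ^ m ∧ θb (ι γ).g ∈ W₁ m := by
    intro γ ha hb'
    constructor
    · rcases Nat.eq_zero_or_pos m with h0 | h0
      · rw [h0]; simp
      · have := hP.mem_of_ker (L := fun j => j < m) (fun j hj => by omega) ha.1 hb'.1 (m - 1)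
          (by omega)
        rw [Nat.sub_add_cancel h0] at this
        exact this.1
    · have h3 := hb'.2 (by rw [neg_neg]; exact ha.1)
      rw [map_neg] at h3
      exact hP₂.mem_of_ker (L := fun j => j < m + 1) (fun j hj => by omega) (ha.2 hb'.1) h3 m
        (by omega)
  have hψ : ∀ γ h : FreeGroup ℕ, CM (ι γ).pr → CM (-(ι γ).pr) →
      ψ.toAddMonoidHom (T'.ta (ι γ).f * T'.tb (ι h).g) = 0 ∧
      ψ.toAddMonoidHom (T'.ta (ι h).f * T'.tb (ι γ).g) = 0 := by
    intro γ h ha hb'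
    obtain ⟨h3, h4⟩ := hker γ ha hb'
    have h5 : (ι γ).f • θb (ι h).g ∈ Ia ^ m • E := Submodule.smul_mem_smul h3 (hE h)
    have h6 : (ι h).f • θb (ι γ).g ∈ Ia ^ m • E := (Ia ^ m • E).smul_mem (ι h).f h4
    rw [hsm] at h5 h6
    have h7 := hψ2 _ h5
    have h8 := hψ2 _ h6
    exact ⟨h7, h8⟩
  have hT : IsTCone (fun γ => triCone (fun q : Qsub lam => CQ q) CM ψ.toAddMonoidHom (ι γ)) := by
    refine tri_tcone ι hQ' (fun q h2 h3 => Subtype.ext (hQa _ h2 h3)) hCM ?_ _ hψ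
    intro γ h hq0 hγ
    refine ⟨hP.cone_of_sub (fun j hj => ?_) hγ.1, fun h2 => ?_⟩
    · rw [← neg_sub]; exact neg_mem (hstepW j γ h hq0 hj)
    · have h3 : C₁ (-(ι γ).pr) := by
        refine hP.cone_of_sub (fun j hj => ?_) h2
        have h4 := hstepW j (h * γ * h⁻¹) h⁻¹ (by simp [hq0])
          (by rw [map_mul, map_mul, map_inv]; simpa using neg_mem hj)
        have e : ι h⁻¹ * ι (h * γ * h⁻¹) * (ι h⁻¹)⁻¹ = ι γ := by
          simp only [map_mul, map_inv]; group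
        rw [e, map_mul, map_mul, map_inv] at h4
        convert h4 using 1
        abel
      refine hP₂.cone_of_sub (fun j hj => ?_) (hγ.2 h3)
      rw [← neg_sub, ← map_sub]
      refine neg_mem ?_
      cases j with
      | zero =>
        change _ ∈ Ia ^ 0 • E
        have h5 := hE (h * γ * h⁻¹)
        rw [map_mul, map_mul, map_inv] at h5
        rw [pow_zero, one_smul, map_sub]
        exact sub_mem (hE γ) h5
      | succ j => exact hstepE j γ h hq0 hj
  obtain ⟨N, _, _, π, hl, hr, hsurj, hπ⟩ := hT.exists_quot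
  refine ⟨N, inferInstance, inferInstance, hl, hr, ?_, fun i => π (FreeGroup.of i), ?_⟩
  · refine tri_nilpotent ι hQ' ψ.toAddMonoidHom hψ (fun j x => x ∈ Wf ev1 j ∧ σ x ∈ W₁ j) m
      (fun γ => ⟨Wf_top _ _, ?_⟩) (fun j γ h hq0 hγ => ⟨hstepW j γ h hq0 hγ.1,
        hstepE j γ h hq0 hγ.2⟩) ?_ π hsurj hπ
    · change _ ∈ Ia ^ 0 • E
      rw [pow_zero, one_smul]
      exact hE γ
    · intro j hj x hx
      have key : ∀ y : Lam × B, y ∈ Wf ev1 j → σ y ∈ W₁ j → CM y := by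
        intro y h2 h3
        refine ⟨hP.cone_of_mem (fun i hi => hP.anti' (by omega) h2), fun _ => ?_⟩
        exact hP₂.cone_of_mem (fun i hi => hW₁ (show i ≤ j by omega) h3)
      exact ⟨key x hx.1 hx.2, key (-x) (neg_mem hx.1) (by rw [map_neg]; exact neg_mem hx.2)⟩
  · intro w hw hc
    have e : FreeGroup.lift (fun i => π (FreeGroup.of i)) = π := by
      ext1 i; simp
    rw [e, hπ] at hc
    apply hs w hw
    rw [← hρι]
    obtain ⟨hc1, hc2⟩ := hc
    refine ⟨hc1, fun hq0 => ?_⟩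
    have hq0' : (ι w).q = 0 := Subtype.ext hq0
    obtain ⟨hc3, hc4⟩ := hc2 hq0'
    have h2 := hj₀ w m (hm2 w hw) hc3.1
    refine ⟨h2, fun h3 => ?_⟩
    have h4 : (ι w).pr = 0 := Wf_inter _ (fun j =>
      hP.mem_of_ker (L := fun _ => True) (fun _ _ => trivial) h2 h3 j trivial)
    have h5 := hc4 (by rw [h4, neg_zero]; exact hCM.zero)
    have h6 := hψ1 _ (Finset.mem_image_of_mem (fun w => (ι w).z) hw)
    change 0 ≤ ψ (ι w).z at h5
    rw [h6] at h5
    exact h5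

end

end Pool.Agent.P.MP_84759c_al
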