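import Mathlib
import Pool.Agent.P.MP_84759c_al.Model
import Pool.Agent.P.MP_84759c_al.LGroup

set_option autoImplicit false

open LaurentPolynomial
open scoped commutatorElement

namespace Pool.Agent.P.MP_84759c_al

section
variable {Q A B D : Type} [AddCommGroup Q] [CommRing A] [CommRing B] [CommRing D]
  (T : TriData Q A B D)

/-- Diagonal elements. -/
def dq : Multiplicative Q →* Tri T := MonoidHom.mk' (fun q => ⟨0, 0, 0, q.toAdd⟩) (fun a b => by
  ext <;> simp)

/-- Elements supported in the second off-diagonal entry. -/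
def gy : Multiplicative B →* Tri T := MonoidHom.mk' (fun b => ⟨0, b.toAdd, 0, 0⟩) (fun a b => by
  ext <;> simp [T.cb_zero])

/-- Central elements. -/
def cz : Multiplicative D →* Tri T := MonoidHom.mk' (fun z => ⟨0, 0, z.toAdd, 0⟩) (fun a b => by
  ext <;> simp)

/-- The generator of the first off-diagonal entry. -/
def fx : Tri T := ⟨1, 0, 0, 0⟩

theorem comm_fx_dq (q : Multiplicative Q) (h : T.ca q.toAdd = 1) : ⁅fx T, dq T q⁆ = 1 := by
  rw [commutatorElement_eq_one_iff_mul_comm]
  ext <;> simp [fx, dq, h]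

theorem comm_dq_dq (p q : Multiplicative Q) : ⁅dq T p, dq T q⁆ = 1 := by
  rw [commutatorElement_eq_one_iff_mul_comm, ← map_mul, ← map_mul, mul_comm]

theorem conj_dq_gy (q : Multiplicative Q) (b : Multiplicative B) :
    dq T q * gy T b * (dq T q)⁻¹ = gy T (Multiplicative.ofAdd (T.cb q.toAdd * b.toAdd)) := by
  ext <;> simp [dq, gy]

theorem comm_fx_gy (b : Multiplicative B) :
    ⁅fx T, gy T b⁆ = cz T (Multiplicative.ofAdd (T.tb b.toAdd)) := by
  rw [commutatorElement_def]
  ext <;> simp [fx, gy, cz, T.ca_zero, T.cb_zero]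

end

/-- The relators. -/
def relA {N : Type*} [Group N] (v : ℕ → N) (i : ℕ) : N := ⁅v 0, v 2 ^ (-ex i) * v (i + 3)⁆
/-- The relators. -/
def relB {N : Type*} [Group N] (v : ℕ → N) (i : ℕ) : N := ⁅v 2, v (i + 3)⁆
/-- The relators. -/
def relC {N : Type*} [Group N] (v : ℕ → N) (k : ℕ) : N :=
  ((List.range (k + 3)).map (fun i => v (i + 3) * v 1 * (v (i + 3))⁻¹)).prod * (v 1 ^ (k + 3))⁻¹
/-- The last word. -/
def relD {N : Type*} [Group N] (v : ℕ → N) : N :=
  (⁅v 0, v 2 * v 1 * (v 2)⁻¹⁆ ^ 2)⁻¹ * ⁅v 0, v 1⁆ ^ 3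

theorem map_relA {N M : Type*} [Group N] [Group M] (f : N →* M) (v : ℕ → N) (i : ℕ) :
    f (relA v i) = relA (fun j => f (v j)) i := by
  simp [relA, map_commutatorElement]
theorem map_relB {N M : Type*} [Group N] [Group M] (f : N →* M) (v : ℕ → N) (i : ℕ) :
    f (relB v i) = relB (fun j => f (v j)) i := by
  simp [relB, map_commutatorElement]
theorem map_relC {N M : Type*} [Group N] [Group M] (f : N →* M) (v : ℕ → N) (k : ℕ) :
    f (relC v k) = relC (fun j => f (v j)) k := by
  simp only [relC, map_mul, map_inv, map_pow, map_list_prod, List.map_map, Function.comp_def]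
theorem map_relD {N M : Type*} [Group N] [Group M] (f : N →* M) (v : ℕ → N) :
    f (relD v) = relD (fun j => f (v j)) := by
  simp [relD, map_commutatorElement]

theorem map_lift {N M : Type*} [Group N] [Group M] (f : N →* M) (v : ℕ → N) (w : FreeGroup ℕ) :
    f (FreeGroup.lift v w) = FreeGroup.lift (fun i => f (v i)) w := by
  have : f.comp (FreeGroup.lift v) = FreeGroup.lift (fun i => f (v i)) := by
    ext1 i; simp
  exact DFunLike.congr_fun this w

/-- The ordered group of rank `k + 3`. -/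
theorem exists_model (k : ℕ) :
    ∃ (G : Type) (_ : Group G) (_ : LinearOrder G), MulLeftMono G ∧ MulRightMono G ∧
      (∀ X : Finset ℕ, X.card ≤ k → ∀ v : ℕ → G, (∀ i ∉ X, v i = 1) →
        ∀ s : Finset (FreeGroup ℕ), (∀ w ∈ s, ¬ 1 ≤ FreeGroup.lift v w) →
        ∃ (N : Type) (_ : Group N) (_ : LinearOrder N), MulLeftMono N ∧ MulRightMono N ∧
          Group.IsNilpotent N ∧ ∃ v' : ℕ → N, ∀ w ∈ s, ¬ 1 ≤ FreeGroup.lift v' w) ∧
      ∃ v : ℕ → G, (∀ i < k + 3, relA v i = 1) ∧ (∀ i < k + 3, relB v i = 1) ∧ relC v k = 1 ∧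
        relD v = ⁅v 0, v 1⁆⁻¹ ∧ ¬ 1 ≤ ⁅v 0, v 1⁆⁻¹ := by
  classical
  obtain ⟨B, _, _, _, _, t, ht, hgen, hB⟩ := exists_ring (k + 2)
  obtain ⟨ev1, h1⟩ := hB ℚ (fun _ => 1) (by simp)
  obtain ⟨evp, hp⟩ := hB ℚ (fun i => two ^ ex i) (by
    rw [← sum_two_ex k]
    simp [two])
  obtain ⟨P, hP⟩ := exists_chain (Wf ev1) (Wf_top ev1) (Wf_anti ev1)
  obtain ⟨PQ, hPQ, hPQa⟩ := exists_acone0 (Fin (k + 3) → ℚ)
  let c : (Fin (k + 3) → ℤ) →+ (Fin (k + 3) → ℚ) :=
    { toFun := fun q i => q i
      map_zero' := by ext; simp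
      map_add' := fun a b => by ext; simp }
  have hQ : IsACone (fun q => PQ (c q)) := hPQ.comap c
  have hQa : ∀ q, PQ (c q) → PQ (c (-q)) → q = 0 := by
    intro q h2 h3
    rw [map_neg] at h3
    have := hPQa _ h2 h3
    ext i
    have h4 := congrFun this i
    simpa [c] using h4
  let T' := T0 t evp hp
  have hM : IsACone (chainCone (Wf ev1) P (fun _ => True)) := hP.isACone (fun _ _ => trivial)
  have hT : IsTCone (fun γ => triCone (fun q => PQ (c q)) (chainCone (Wf ev1) P (fun _ => True))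
      (AddMonoidHom.id ℚ) (MonoidHom.id (Tri T') γ)) := by
    refine tri_tcone _ hQ hQa hM ?_ _ ?_
    · intro γ h hq0 hγ
      refine hP.cone_of_sub (fun j hj => ?_) hγ
      rw [← neg_sub]
      refine neg_mem ?_
      have := Wf_step h1 j _ hj (-h.q) h.q
      simp only [MonoidHom.id_apply] at hq0 ⊢
      simp only [Tri.pr, Tri.conj_f hq0, Tri.conj_g hq0]
      exact this
    · intro γ h h2 h3
      have h4 : γ.pr = 0 := Wf_inter _ (fun j =>
        hP.mem_of_ker (L := fun _ => True) (fun _ _ => trivial) h2 h3 j trivial)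
      have h5 : γ.f = 0 := congrArg Prod.fst h4
      have h6 : γ.g = 0 := congrArg Prod.snd h4
      simp [h5, h6]
  obtain ⟨G, _, _, π, hl, hr, hs, hπ⟩ := hT.exists_quot
  refine ⟨G, inferInstance, inferInstance, hl, hr, ?_, ?_⟩
  · intro X hX v hv s hs'
    choose u hu using hs
    let v₀ : ℕ → Tri T' := fun i => if i ∈ X then u (v i) else 1
    have hv₀ : (fun i => π (v₀ i)) = v := by
      ext i
      by_cases hi : i ∈ X
      · simp [v₀, hi, hu]
      · simp [v₀, hi, hv i hi]
    refine approx hB hgen h1 hp hP hQ hQa X hX v₀ (fun i hi => by simp [v₀, hi]) s ?_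
    intro w hw hc
    apply hs' w hw
    rw [← hv₀, ← map_lift, hπ]
    exact hc
  · let e : ℕ → Multiplicative (Fin (k + 3) → ℤ) := fun i =>
      Multiplicative.ofAdd (if h : i < k + 3 then Pi.single ⟨i, h⟩ 1 else 0)
    let v₀ : ℕ → Tri T' := fun i =>
      if i = 0 then fx T' else if i = 1 then gy T' (Multiplicative.ofAdd 1) else
        if i = 2 then dq T' (e 0) else dq T' (e (i - 3))
    have v0 : v₀ 0 = fx T' := by simp [v₀]
    have v1 : v₀ 1 = gy T' (Multiplicative.ofAdd 1) := by simp [v₀]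
    have v2 : v₀ 2 = dq T' (e 0) := by simp [v₀]
    have v3 : ∀ i, v₀ (i + 3) = dq T' (e i) := by intro i; simp [v₀]
    have hcb : ∀ i (hi : i < k + 3), T'.cb (e i).toAdd = t ⟨i, hi⟩ := by
      intro i hi
      simp only [e, dif_pos hi, toAdd_ofAdd]
      exact chi_single t _
    have hd : ⁅v₀ 0, v₀ 1⁆ = cz T' (Multiplicative.ofAdd 1) := by
      rw [v0, v1, comm_fx_gy]; simp
    have hd' : ⁅π (v₀ 0), π (v₀ 1)⁆ = π (cz T' (Multiplicative.ofAdd 1)) := by
      rw [← hd, map_commutatorElement]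
    refine ⟨fun i => π (v₀ i), fun i hi => ?_, fun i hi => ?_, ?_, ?_, ?_⟩
    · rw [← map_relA, relA, v0, v2, v3, ← map_zpow, ← map_mul, comm_fx_dq, map_one]
      change cA k _ = 1
      rw [cA_eq]
      have : (∑ j : Fin (k + 3), ex j * (e 0 ^ (-ex i) * e i).toAdd j) = 0 := by
        simp only [e, dif_pos hi, dif_pos (show 0 < k + 3 by omega), toAdd_mul, toAdd_zpow,
          toAdd_ofAdd, Pi.add_apply, Pi.smul_apply, mul_add, Finset.sum_add_distrib, smul_eq_mul,
          Pi.single_apply, mul_ite, mul_one, mul_zero, Finset.sum_ite_eq', Finset.mem_univ, if_true]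
        simp [ex]
      rw [this, T_zero]
    · rw [← map_relB, relB, v2, v3, comm_dq_dq, map_one]
    · rw [← map_relC, relC]
      have e1 : (List.range (k + 3)).map (fun i => v₀ (i + 3) * v₀ 1 * (v₀ (i + 3))⁻¹) =
          (List.range (k + 3)).map (fun i => gy T' (Multiplicative.ofAdd (T'.cb (e i).toAdd))) := by
        refine List.map_congr_left (fun i _ => ?_)
        rw [v3, v1, conj_dq_gy]; simp
      have e2 : ∀ n, ((List.range n).map
          (fun i => gy T' (Multiplicative.ofAdd (T'.cb (e i).toAdd)))).prod =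
          gy T' (Multiplicative.ofAdd (∑ i ∈ Finset.range n, T'.cb (e i).toAdd)) := by
        intro n
        rw [ofAdd_sum]
        induction n with
        | zero => simp
        | succ n ih =>
          rw [List.range_succ, List.map_append, List.prod_append, ih, Finset.prod_range_succ,
            map_mul]
          simp
      have e3 : ∑ i ∈ Finset.range (k + 3), T'.cb (e i).toAdd = ((k + 2 + 1 : ℕ) : B) := by
        rw [← ht, ← Fin.sum_univ_eq_sum_range (fun i => T'.cb (e i).toAdd)]
        exact Finset.sum_congr rfl (fun i _ => hcb i i.2)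
      rw [e1, e2, e3, v1, ← map_pow, ← ofAdd_nsmul, nsmul_one, mul_inv_cancel, map_one]
    · rw [← map_relD, relD, hd', hd, v0, v1, v2, conj_dq_gy, comm_fx_gy, hcb 0 (by omega)]
      have e1 : T'.tb ((Multiplicative.ofAdd ((t ⟨0, by omega⟩ : B) *
          (Multiplicative.ofAdd (1 : B)).toAdd)).toAdd) = 2 := by
        simp only [toAdd_ofAdd, mul_one]
        change evp _ = 2
        rw [hp]; simp [ex, two]
      rw [e1, ← map_pow (cz T'), ← map_pow (cz T'), ← map_inv (cz T'), ← map_mul (cz T'),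
        ← map_inv π, ← map_inv (cz T')]
      congr 2
      apply Multiplicative.toAdd.injective
      simp
      norm_num
    · rw [hd', ← map_inv, hπ, ← map_inv]
      rintro ⟨-, h2⟩
      have h3 := (h2 rfl).2 (by
        have : (MonoidHom.id (Tri T') (cz T' (Multiplicative.ofAdd 1)⁻¹)).pr = 0 := rfl
        rw [this, neg_zero]; exact hM.zero)
      have h4 : (0 : ℚ) ≤ -1 := h3
      norm_num at h4

theorem exists_support (w : FreeGroup ℕ) : ∃ X : Finset ℕ, ∀ (G : Type) [Group G] (v v' : ℕ → G),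
    (∀ i ∈ X, v i = v' i) → FreeGroup.lift v w = FreeGroup.lift v' w := by
  induction w using FreeGroup.induction_on with
  | C1 => exact ⟨∅, fun G _ v v' _ => by simp⟩
  | of i => exact ⟨{i}, fun G _ v v' h => by simpa using h⟩
  | inv_of i ih =>
    obtain ⟨X, hX⟩ := ih
    exact ⟨X, fun G _ v v' h => by rw [map_inv, map_inv, hX G v v' h]⟩
  | mul a b ha hb =>
    obtain ⟨X, hX⟩ := ha
    obtain ⟨Y, hY⟩ := hb
    refine ⟨X ∪ Y, fun G _ v v' h => ?_⟩
    rw [map_mul, map_mul, hX G v v' (fun i hi => h i (Finset.mem_union_left _ hi)),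
      hY G v v' (fun i hi => h i (Finset.mem_union_right _ hi))]

open Classical in
/-- The relators of the group of rank `k + 3`. -/
noncomputable def rels (k : ℕ) : Finset (FreeGroup ℕ) :=
  insert (relC FreeGroup.of k) ((Finset.range (k + 3)).image (relA FreeGroup.of) ∪
    (Finset.range (k + 3)).image (relB FreeGroup.of))

open Classical in
/-- The identity that holds in nilpotent lattice-ordered groups. -/
noncomputable def ident (k : ℕ) : Finset (FreeGroup ℕ) :=
  insert (relD FreeGroup.of)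
    ((rels k).image (fun r => ⁅FreeGroup.of 0, FreeGroup.of 1⁆⁻¹ * r) ∪
      (rels k).image (fun r => ⁅FreeGroup.of 0, FreeGroup.of 1⁆⁻¹ * r⁻¹))

theorem ident_nonempty (k : ℕ) : (ident k).Nonempty := by
  classical
  unfold ident
  convert Finset.insert_nonempty _ _

theorem ident_valid (k : ℕ) (H : Type) [Group H] [Lattice H] [MulLeftMono H] [MulRightMono H]
    (hH : Group.IsNilpotent H) (v : ℕ → H) :
    (1 : H) ≤ (ident k).sup' (ident_nonempty k) (fun w => FreeGroup.lift v w) := by
  classical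
  by_contra hcon
  obtain ⟨C, hC, hCu⟩ := exists_tcone hcon
  obtain ⟨N, _, _, π, hl, hr, hs, hπ⟩ := hC.exists_quot
  have hN : Group.IsNilpotent N := Group.nilpotent_of_surjective π hs
  let v' : ℕ → N := fun i => π (v i)
  have key : ∀ w ∈ ident k, FreeGroup.lift v' w < 1 := by
    intro w hw
    rw [← not_le, ← map_lift, hπ]
    exact hCu _ (Finset.le_sup' (fun w => FreeGroup.lift v w) hw)
  have hv' : (fun j => FreeGroup.lift v' (FreeGroup.of j)) = v' := by ext j; simp
  have key2 : ∀ r ∈ rels k, FreeGroup.lift v' r ≤ ⁅v' 0, v' 1⁆ ∧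
      (FreeGroup.lift v' r)⁻¹ ≤ ⁅v' 0, v' 1⁆ := by
    intro r hr'
    have h1 := key (⁅FreeGroup.of 0, FreeGroup.of 1⁆⁻¹ * r) (by
      simp only [ident, Finset.mem_insert, Finset.mem_union, Finset.mem_image]
      exact Or.inr (Or.inl ⟨r, hr', rfl⟩))
    have h2 := key (⁅FreeGroup.of 0, FreeGroup.of 1⁆⁻¹ * r⁻¹) (by
      simp only [ident, Finset.mem_insert, Finset.mem_union, Finset.mem_image]
      exact Or.inr (Or.inr ⟨r, hr', rfl⟩))
    simp only [map_mul, map_inv, map_commutatorElement, FreeGroup.lift_apply_of] at h1 h2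
    exact ⟨inv_mul_le_one_iff.mp h1.le, inv_mul_le_one_iff.mp h2.le⟩
  have h := nil_contra (v' 0) (v' 1) (v' 2) (fun i => v' (i + 3)) k
    (fun i hi => by
      have := key2 (relA FreeGroup.of i) (by
        simp only [rels, Finset.mem_insert, Finset.mem_union, Finset.mem_image, Finset.mem_range]
        exact Or.inr (Or.inl ⟨i, hi, rfl⟩))
      rw [map_relA, hv'] at this
      exact this)
    (fun i hi => by
      have := key2 (relB FreeGroup.of i) (by
        simp only [rels, Finset.mem_insert, Finset.mem_union, Finset.mem_image, Finset.mem_range]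
        exact Or.inr (Or.inr ⟨i, hi, rfl⟩))
      rw [map_relB, hv'] at this
      exact this)
    (by
      have := key2 (relC FreeGroup.of k) (by simp [rels])
      rw [map_relC, hv'] at this
      exact this)
  have h2 := key (relD FreeGroup.of) (by simp [ident])
  rw [map_relD, hv'] at h2
  exact absurd h (not_le.mpr h2)

theorem ident_fails (k : ℕ) {G : Type} [Group G] (v : ℕ → G) (hA : ∀ i < k + 3, relA v i = 1)
    (hB : ∀ i < k + 3, relB v i = 1) (hC : relC v k = 1) (hD : relD v = ⁅v 0, v 1⁆⁻¹) :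
    ∀ w ∈ ident k, FreeGroup.lift v w = ⁅v 0, v 1⁆⁻¹ := by
  classical
  have hv : (fun j => FreeGroup.lift v (FreeGroup.of j)) = v := by ext j; simp
  have key : ∀ r ∈ rels k, FreeGroup.lift v r = 1 := by
    intro r hr
    simp only [rels, Finset.mem_insert, Finset.mem_union, Finset.mem_image, Finset.mem_range] at hr
    rcases hr with rfl | ⟨i, hi, rfl⟩ | ⟨i, hi, rfl⟩
    · rw [map_relC, hv, hC]
    · rw [map_relA, hv, hA i hi]
    · rw [map_relB, hv, hB i hi]
  intro w hw
  simp only [ident, Finset.mem_insert, Finset.mem_union, Finset.mem_image] at hw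
  rcases hw with rfl | ⟨r, hr, rfl⟩ | ⟨r, hr, rfl⟩
  · rw [map_relD, hv, hD]
  · simp [key r hr, map_commutatorElement]
  · simp [key r hr, map_commutatorElement]

theorem not_finitely_based :
    ¬ (∃ E : Finset (Finset (FreeGroup ℕ)),
      ∀ (G : Type) [Group G] [Lattice G] [MulLeftMono G] [MulRightMono G],
        ((∀ s ∈ E, ∀ hs : s.Nonempty, ∀ v : ℕ → G,
            (1 : G) ≤ s.sup' hs (fun w => FreeGroup.lift v w)) ↔
          (∀ s : Finset (FreeGroup ℕ), ∀ hs : s.Nonempty,
            (∀ (H : Type) [Group H] [Lattice H] [MulLeftMono H] [MulRightMono H],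
              Group.IsNilpotent H → ∀ v : ℕ → H,
                (1 : H) ≤ s.sup' hs (fun w => FreeGroup.lift v w)) →
            ∀ v : ℕ → G, (1 : G) ≤ s.sup' hs (fun w => FreeGroup.lift v w)))) := by
  classical
  rintro ⟨E, hE⟩
  choose supp hsupp using exists_support
  let X : Finset ℕ := E.biUnion (fun s => s.biUnion supp)
  obtain ⟨G, _, _, hl, hr, hA, v, h1, h2, h3, h4, h5⟩ := exists_model X.card
  have hG := (hE G).mp (by
    intro s hs hne u
    by_contra hcon
    rw [Finset.le_sup'_iff] at hcon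
    push Not at hcon
    let u' : ℕ → G := fun i => if i ∈ X then u i else 1
    obtain ⟨N, _, _, hl', hr', hN, v', hv'⟩ := hA X le_rfl u' (fun i hi => by simp [u', hi]) s (by
      intro w hw
      rw [hsupp w G u' u (fun i hi => by
        have : i ∈ X := Finset.mem_biUnion.mpr ⟨s, hs, Finset.mem_biUnion.mpr ⟨w, hw, hi⟩⟩
        simp [u', this])]
      exact not_le.mpr (hcon w hw))
    have h6 := (hE N).mpr (fun s hs h v => h N hN v) s hs hne v'
    rw [Finset.le_sup'_iff] at h6
    obtain ⟨w, hw, h7⟩ := h6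
    exact hv' w hw h7) (ident X.card) (ident_nonempty _)
    (fun H _ _ _ _ hH v => ident_valid _ H hH v) v
  rw [Finset.le_sup'_iff] at hG
  obtain ⟨w, hw, h6⟩ := hG
  rw [ident_fails _ v h1 h2 h3 h4 w hw] at h6
  exact h5 h6

end Pool.Agent.P.MP_84759c_al
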